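import Mathlib
import Pool.Agent.Results.MP_5ca50a_lc.SmallExponents
set_option autoImplicit false

namespace Pool.Agent.TH297.PK

open Pool.Agent.Results.MP_5ca50a_lc.SmallExponents

variable {α V E : Type}

namespace W

variable (G : TG α V E) (k : ℕ) (Lg : List α → Prop)

/-- All words obtained from `l` by insertions of powers fit in the context `P _ Z`. -/
def F (a b : V) (P Z : List α) (l : List E) : Prop :=
  ∀ n g x, G.Dom k n a l g b → G.LP g x → Lg (P ++ x ++ Z)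

/-- `l` may replace `l'`. -/
def Le (a b : V) (l l' : List E) : Prop :=
  ∀ P Z, F G k Lg a b P Z l' → F G k Lg a b P Z l

variable {G k Lg}

theorem Le.refl {a b : V} (l : List E) : Le G k Lg a b l l := fun _ _ h => h

theorem Le.trans {a b : V} {l l' l'' : List E} (h1 : Le G k Lg a b l l')
    (h2 : Le G k Lg a b l' l'') : Le G k Lg a b l l'' := fun P Z h => h1 P Z (h2 P Z h)

theorem Le.append {a b c : V} {l1 l1' l2 l2' : List E} (hw : G.Walk a l1 c)
    (h1 : Le G k Lg a c l1 l1') (h2 : Le G k Lg c b l2 l2') :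
    Le G k Lg a b (l1 ++ l2) (l1' ++ l2') := by
  intro P Z h n g x hd hx
  obtain ⟨g1, g2, m1, m2, rfl, rfl, d1, d2⟩ := hd.split hw
  obtain ⟨x1, x2, rfl, hx1, hx2⟩ := G.LP_append.mp hx
  have step1 : ∀ m g2 y2, G.Dom k m c l2' g2 b → G.LP g2 y2 → Lg (P ++ x1 ++ (y2 ++ Z)) := by
    intro m g2 y2 hg2 hy2
    refine h1 P (y2 ++ Z) ?_ m1 g1 x1 d1 hx1
    intro m' g1' y1 hg1' hy1
    have := h _ _ (y1 ++ y2) (hg1'.append hg2) (G.LP_append.mpr ⟨_, _, rfl, hy1, hy2⟩)
    simpa [List.append_assoc] using this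
  have step2 := h2 (P ++ x1) Z (fun m g2 y2 hg2 hy2 => by
    have := step1 m g2 y2 hg2 hy2
    simpa [List.append_assoc] using this) m2 g2 x2 d2 hx2
  simpa [List.append_assoc] using step2

/-- Mutual replaceability. -/
def Eqv (G : TG α V E) (k : ℕ) (Lg : List α → Prop) (a b : V) (l l' : List E) : Prop :=
  Le G k Lg a b l l' ∧ Le G k Lg a b l' l

theorem Eqv.refl {a b : V} (l : List E) : Eqv G k Lg a b l l := ⟨Le.refl l, Le.refl l⟩

theorem Eqv.append {a b c : V} {l1 l1' l2 l2' : List E} (hw : G.Walk a l1 c)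
    (hw' : G.Walk a l1' c) (h1 : Eqv G k Lg a c l1 l1') (h2 : Eqv G k Lg c b l2 l2') :
    Eqv G k Lg a b (l1 ++ l2) (l1' ++ l2') :=
  ⟨h1.1.append hw h2.1, h1.2.append hw' h2.2⟩

theorem last_visit (a : V) : ∀ l : List E, (∃ e ∈ l, G.src e = a) →
    ∃ p e l'', l = p ++ e :: l'' ∧ G.src e = a ∧ ∀ e' ∈ l'', G.src e' ≠ a
  | [], h => by obtain ⟨e, he, _⟩ := h; simp at he
  | e :: l, h => by
    by_cases h' : ∃ e' ∈ l, G.src e' = a
    · obtain ⟨p, e', l'', rfl, h1, h2⟩ := last_visit a l h'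
      exact ⟨e :: p, e', l'', rfl, h1, h2⟩
    · obtain ⟨e0, he0, hs⟩ := h
      rcases List.mem_cons.mp he0 with rfl | he0
      · exact ⟨[], e0, l, rfl, hs, fun e' he' hc => h' ⟨e', he', hc⟩⟩
      · exact absurd ⟨e0, he0, hs⟩ h'

/-- Finitely many classes of closed walks. -/
def FinClosed (G : TG α V E) (k : ℕ) (Lg : List α → Prop) (a : V) : Prop :=
  ∃ R : Set (List E), R.Finite ∧ (∀ r ∈ R, G.Walk a r a) ∧
    ∀ l, G.Walk a l a → ∃ r ∈ R, Eqv G k Lg a a l r

theorem fin_walks [Finite E] (hcl : ∀ a, FinClosed G k Lg a) (U : Finset V) :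
    ∀ a b, ∃ R : Set (List E), R.Finite ∧ (∀ r ∈ R, G.Walk a r b) ∧
      ∀ l, G.Walk a l b → (∀ e ∈ l, G.src e ∈ U) → ∃ r ∈ R, Eqv G k Lg a b l r := by
  classical
  induction U using Finset.strongInduction with
  | H U ih =>
    intro a b
    by_cases haU : a ∈ U
    · obtain ⟨Rc, fc, wc, hc⟩ := hcl a
      have ih' := ih (U.erase a) (Finset.erase_ssubset haU)
      choose R fR wR hR using ih'
      refine ⟨{l | l = [] ∧ G.Walk a l b} ∪ ⋃ e : E,
        (fun x : List E × List E => x.1 ++ e :: x.2) ''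
          ({p | p ∈ Rc ∧ G.src e = a} ×ˢ R (G.tgt e) b), ?_, ?_, ?_⟩
      · refine Set.Finite.union ((Set.finite_singleton ([] : List E)).subset ?_) ?_
        · rintro l ⟨h, _⟩; exact h
        · refine Set.finite_iUnion fun e => ?_
          exact ((fc.subset (fun p hp => hp.1)).prod (fR _ _)).image _
      · rintro r (hr | hr)
        · exact hr.2
        · obtain ⟨e, ⟨x, y⟩, ⟨⟨hx, he⟩, hy⟩, rfl⟩ := Set.mem_iUnion.mp hr
          exact G.walk_append.mpr ⟨a, wc x hx, he, wR _ _ y hy⟩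
      · intro l hl hU
        rcases l with _ | ⟨e0, l0⟩
        · exact ⟨[], Or.inl ⟨rfl, hl⟩, Eqv.refl _⟩
        · obtain ⟨p, e, l'', he, hs, hne⟩ := last_visit (G := G) a (e0 :: l0) ⟨e0, by simp, hl.1⟩
          rw [he] at hl hU
          obtain ⟨c, w1, w2⟩ := G.walk_append.mp hl
          obtain ⟨w3, w4⟩ := w2
          have hca : c = a := by rw [← w3, hs]
          subst hca
          obtain ⟨r1, hr1, e1⟩ := hc p w1
          obtain ⟨r2, hr2, e2⟩ := hR (G.tgt e) b l'' w4 (by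
            intro e' he'
            refine Finset.mem_erase.mpr ⟨hne e' he', hU e' ?_⟩
            simp [he'])
          refine ⟨r1 ++ e :: r2, Or.inr (Set.mem_iUnion.mpr ⟨e, (r1, r2), ⟨⟨hr1, hs⟩, hr2⟩, rfl⟩), ?_⟩
          rw [he]
          refine Eqv.append w1 (wc r1 hr1) e1 ?_
          have we : G.Walk c [e] (G.tgt e) := ⟨w3, rfl⟩
          exact Eqv.append (l1 := [e]) (l1' := [e]) we we (Eqv.refl _) e2
    · refine ⟨{l | l = [] ∧ G.Walk a l b}, (Set.finite_singleton ([] : List E)).subset ?_,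
        fun r hr => hr.2, ?_⟩
      · rintro l ⟨h, _⟩; exact h
      · intro l hl hU
        rcases l with _ | ⟨e0, l0⟩
        · exact ⟨[], ⟨rfl, hl⟩, Eqv.refl _⟩
        · exact absurd (hU e0 (by simp)) (by rw [hl.1]; exact haU)

theorem fin_walks' [Finite E] (hcl : ∀ a, FinClosed G k Lg a) (a b : V) :
    ∃ R : Set (List E), R.Finite ∧ (∀ r ∈ R, G.Walk a r b) ∧
      ∀ l, G.Walk a l b → ∃ r ∈ R, Eqv G k Lg a b l r := by
  classical
  obtain ⟨R, h1, h2, h3⟩ := fin_walks hcl (Set.finite_range G.src).toFinset a b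
  refine ⟨R, h1, h2, fun l hl => h3 l hl ?_⟩
  intro e _
  simp

/-- From a finite colouring of words to finitely many classes of closed walks. -/
theorem finClosed_of_coloring {a : V} {C : Type} [Finite C] (χ : List α → C)
    (h : ∀ P Z δ κ, χ δ = χ κ → (∃ p, G.Walk a p a ∧ G.LP p δ) → (∃ p, G.Walk a p a ∧ G.LP p κ) →
      (∀ n1 g1 x1 n2 g2 x2, G.Dom k n1 a [] g1 a → G.LP g1 x1 → G.Dom k n2 a [] g2 a →
        G.LP g2 x2 → Lg (P ++ x1 ++ δ ++ x2 ++ Z)) → Lg (P ++ κ ++ Z)) :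
    FinClosed G k Lg a := by
  classical
  let χ' : List E → Set C := fun p => {c | ∃ n g x, G.Dom k n a p g a ∧ G.LP g x ∧ χ x = c}
  have key : ∀ p p', χ' p = χ' p' → Le G k Lg a a p p' := by
    intro p p' hpp P Z hF n g x hd hx
    have hc : χ x ∈ χ' p := ⟨n, g, x, hd, hx, rfl⟩
    rw [hpp] at hc
    obtain ⟨n', g', x', hd', hx', hxx⟩ := hc
    refine h P Z x' x hxx ⟨g', hd'.walk', hx'⟩ ⟨g, hd.walk', hx⟩ ?_
    intro n1 g1 x1 n2 g2 x2 d1 h1 d2 h2
    have dd := d1.append (hd'.append d2)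
    rw [List.append_nil, List.nil_append] at dd
    have := hF _ _ (x1 ++ (x' ++ x2)) dd
      (G.LP_append.mpr ⟨_, _, rfl, h1, G.LP_append.mpr ⟨_, _, rfl, hx', h2⟩⟩)
    simpa [List.append_assoc] using this
  -- representatives
  let S : Set (Set C) := χ' '' {p | G.Walk a p a}
  have hS : S.Finite := Set.toFinite _
  have hrep : ∀ s ∈ S, ∃ p, G.Walk a p a ∧ χ' p = s := fun s hs => hs
  choose! rep hrep1 hrep2 using hrep
  refine ⟨rep '' S, hS.image _, ?_, ?_⟩
  · rintro _ ⟨s, hs, rfl⟩; exact hrep1 s hs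
  · intro l hl
    have hs : χ' l ∈ S := ⟨l, hl, rfl⟩
    exact ⟨rep (χ' l), ⟨_, hs, rfl⟩, key _ _ (hrep2 _ hs).symm, key _ _ (hrep2 _ hs)⟩

end W

section grammar

variable {g : ContextFreeGrammar α}

/-- Main theorem, grammar form. -/
theorem finite_quotients' {k : ℕ} (hP : PK k (fun w => w ∈ g.language))
    (hcl : ∀ a, W.FinClosed (tg g) k (fun w => w ∈ g.language) a) :
    (Set.range g.language.leftQuotient).Finite := by
  classical
  have hcl' := fun t : EndT g => W.fin_walks' (G := tg g) hcl g.initial t.1.1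
  choose R hRf hRw hR using hcl'
  have hΩ : {p : EndT g × List (EdgeT g) | p.2 ∈ R p.1}.Finite := by
    have : {p : EndT g × List (EdgeT g) | p.2 ∈ R p.1} ⊆
        Set.univ ×ˢ (⋃ t : EndT g, R t) := by
      rintro ⟨t, r⟩ hr
      exact ⟨Set.mem_univ _, Set.mem_iUnion.mpr ⟨t, hr⟩⟩
    exact (Set.finite_univ.prod (Set.finite_iUnion hRf)).subset this
  let C : List α → Set (EndT g × List (EdgeT g)) := fun x => {p | p.2 ∈ R p.1 ∧
    ∃ l x1 x2, (tg g).Walk g.initial l p.1.1.1 ∧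
      W.Eqv (tg g) k (fun w => w ∈ g.language) g.initial p.1.1.1 l p.2 ∧
      x = x1 ++ x2 ∧ (tg g).LP l x1 ∧ Gen g p.1.1.2.1 x2}
  let F : Set (EndT g × List (EdgeT g)) → Language α := fun D => {z | ∃ p ∈ D,
    ∃ l z2 z1, (tg g).Walk g.initial l p.1.1.1 ∧
      W.Eqv (tg g) k (fun w => w ∈ g.language) g.initial p.1.1.1 l p.2 ∧
      z = z2 ++ z1 ∧ Gen g p.1.1.2.2 z2 ∧ (tg g).RP l z1}
  have key : ∀ x, g.language.leftQuotient x = F (C x) := by
    intro x
    ext z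
    rw [Language.mem_leftQuotient]
    constructor
    · intro hxz
      obtain ⟨l, t, x1, x2, z2, z1, hw, rfl, rfl, hL, hx, hz, hRR⟩ :=
        spine_of_genN ((mem_language_iff_genN _).mp hxz)
      obtain ⟨r, hr, hs⟩ := hR t l hw
      exact ⟨(t, r), ⟨hr, l, x1, x2, hw, hs, rfl, hL, hx⟩, l, z2, z1, hw, hs, rfl, hz, hRR⟩
    · rintro ⟨⟨t, r⟩, ⟨hr, l, x1, x2, hw, hs, rfl, hL, hx⟩, l', z2, z1, hw', hs', rfl, hz, hRR⟩
      have hle : W.Le (tg g) k (fun w => w ∈ g.language) g.initial t.1.1 l l' :=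
        hs.1.trans hs'.2
      have hdiag : ∀ l0, (tg g).Walk g.initial l0 t.1.1 →
          TG.Rel (G := tg g) (fun m => ∃ m1 m2, m = m1 ++ m2 ∧
            Gen g t.1.2.1 m1 ∧ Gen g t.1.2.2 m2) (fun w => w ∈ g.language) l0 l0 := by
        intro l0 hl0 y m v hy hm hv
        obtain ⟨m1, m2, rfl, hm1, hm2⟩ := hm
        exact (mem_language_iff_genN _).mpr
          (genN_of_walk hl0 hy hv ⟨_, t.2, hm1.append hm2⟩)
      have hF : W.F (tg g) k (fun w => w ∈ g.language) g.initial t.1.1 [] (x2 ++ z2 ++ z1) l' := by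
        intro n g' y hd hy
        have h1 := TG.claimA (G := tg g) hP hdiag (n + 0) n 0 rfl l' g' l' hd
          (TG.Dom.refl hw') y (x2 ++ z2) z1 hy ⟨x2, z2, rfl, hx, hz⟩ hRR
        simpa [List.append_assoc] using h1
      have := hle _ _ hF 0 l x1 (TG.Dom.refl hw) hL
      simpa [List.append_assoc] using this
  have hsub : Set.range g.language.leftQuotient ⊆ F '' {D | D ⊆
      {p : EndT g × List (EdgeT g) | p.2 ∈ R p.1}} := by
    rintro _ ⟨x, rfl⟩
    exact ⟨C x, fun p hp => hp.1, (key x).symm⟩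
  exact (hΩ.finite_subsets.image F).subset hsub

end grammar

end Pool.Agent.TH297.PK
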