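import Mathlib
import Pool.Agent.TH297.PK.A
set_option autoImplicit false

namespace Pool.Agent.TH297.PK

open Pool.Agent.Results.MP_5ca50a_lc.SmallExponents

variable {α : Type}

theorem rep_reverse {β : Type} (n : ℕ) (u : List β) : (rep n u).reverse = rep n u.reverse := by
  induction n with
  | zero => rfl
  | succ n ih =>
    rw [rep_succ, List.reverse_append, ih, rep_add n 1]
    simp [rep_succ]

theorem rep_succ' {β : Type} (n : ℕ) (u : List β) : rep (n+1) u = rep n u ++ u := by
  rw [rep_add]; simp [rep_succ]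

theorem rep_one {β : Type} (u : List β) : rep 1 u = u := by simp [rep_succ]

theorem length_rep {β : Type} (n : ℕ) (u : List β) : (rep n u).length = n * u.length := by
  induction n with
  | zero => simp
  | succ n ih => rw [rep_succ, List.length_append, ih]; ring

/-- Two-head reading relations: `T a u v b`: from state `a`, reading `u` with the left head and `v`
with the right head (which moves from right to left), one can reach `b`. -/
structure TT (α Q : Type) where
  T : Q → List α → List α → Q → Prop
  refl : ∀ a, T a [] [] a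
  comp : ∀ {a u v b u' v' c}, T a u v b → T b u' v' c → T a (u ++ u') (v' ++ v) c
  splitL : ∀ {a u1 u2 v c}, T a (u1 ++ u2) v c →
    ∃ b v1 v2, v = v2 ++ v1 ∧ T a u1 v1 b ∧ T b u2 v2 c
  splitR : ∀ {a u v2 v1 c}, T a u (v2 ++ v1) c →
    ∃ b u1 u2, u = u1 ++ u2 ∧ T a u1 v1 b ∧ T b u2 v2 c

namespace TT

variable {Q : Type} (S : TT α Q)

/-- The mirror image. -/
def mirror : TT α Q where
  T a u v b := S.T a v.reverse u.reverse b
  refl a := S.refl a
  comp := by
    intro a u v b u' v' c h1 h2
    have := S.comp h1 h2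
    simpa using this
  splitL := by
    intro a u1 u2 v c h
    rw [List.reverse_append] at h
    obtain ⟨b, w1, w2, e, h1, h2⟩ := S.splitR h
    refine ⟨b, w1.reverse, w2.reverse, ?_, ?_, ?_⟩
    · rw [← List.reverse_append, ← e, List.reverse_reverse]
    · simpa using h1
    · simpa using h2
  splitR := by
    intro a u v2 v1 c h
    rw [List.reverse_append] at h
    obtain ⟨b, w1, w2, e, h1, h2⟩ := S.splitL h
    refine ⟨b, w1.reverse, w2.reverse, ?_, ?_, ?_⟩
    · rw [← List.reverse_append, ← e, List.reverse_reverse]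
    · simpa using h1
    · simpa using h2

/-- The word read on the right along a chain. -/
def seg (c : ℕ → List α) (i : ℕ) : ℕ → List α
  | 0 => []
  | d + 1 => c (i + d) ++ seg c i d

theorem seg_add (c : ℕ → List α) (i d d' : ℕ) : seg c i (d + d') = seg c (i + d) d' ++ seg c i d := by
  induction d' with
  | zero => simp [seg]
  | succ d' ih =>
    rw [← Nat.add_assoc, seg, ih, seg]
    simp [Nat.add_assoc]

theorem seg_congr {c c' : ℕ → List α} {i d : ℕ} (h : ∀ j, i ≤ j → j < i + d → c j = c' j) :
    seg c i d = seg c' i d := by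
  induction d with
  | zero => rfl
  | succ d ih => rw [seg, seg, ih (fun j h1 h2 => h j h1 (by omega)), h _ (by omega) (by omega)]

variable {S}

theorem chain {s : List α} : ∀ (n : ℕ) {a : Q} {v : List α} {b : Q}, S.T a (rep (n+1) s) v b →
    ∃ (f : ℕ → Q) (c : ℕ → List α), f 0 = a ∧ f (n+1) = b ∧
      (∀ i, i < n + 1 → S.T (f i) s (c i) (f (i+1))) ∧ v = seg c 0 (n+1) := by
  intro n
  induction n with
  | zero =>
    intro a v b h
    refine ⟨fun i => if i = 0 then a else b, fun _ => v, by simp, by simp, ?_, by simp [seg]⟩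
    intro i hi
    obtain rfl : i = 0 := by omega
    rw [rep_one] at h
    simpa using h
  | succ n ih =>
    intro a v b h
    rw [rep_succ'] at h
    obtain ⟨m, v1, v2, rfl, h1, h2⟩ := S.splitL h
    obtain ⟨f, c, h0, hn, hs, rfl⟩ := ih h1
    refine ⟨fun i => if i ≤ n + 1 then f i else b, fun i => if i ≤ n then c i else v2,
      by simpa using h0, by simp, ?_, ?_⟩
    · intro i hi
      by_cases hi' : i ≤ n
      · have h3 : i + 1 ≤ n + 1 := by omega
        have h4 : i ≤ n + 1 := by omega
        simp only [hi', h3, h4, if_true]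
        exact hs i (by omega)
      · obtain rfl : i = n + 1 := by omega
        have h3 : ¬ (n + 1 + 1 ≤ n + 1) := by omega
        have h4 : ¬ (n + 1 ≤ n) := by omega
        beta_reduce
        rw [if_pos (le_refl _), if_neg h3, if_neg h4, hn]
        exact h2
    · have e : seg (fun i => if i ≤ n then c i else v2) 0 (n+1) = seg c 0 (n+1) := by
        apply seg_congr
        intro j _ hj
        have : j ≤ n := by omega
        simp [this]
      have e2 : seg (fun i => if i ≤ n then c i else v2) 0 (n+1+1) =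
        (fun i => if i ≤ n then c i else v2) (0 + (n+1)) ++
          seg (fun i => if i ≤ n then c i else v2) 0 (n+1) := rfl
      rw [e2, e]
      simp

theorem segT {s : List α} {f : ℕ → Q} {c : ℕ → List α} {N : ℕ}
    (hs : ∀ i, i < N → S.T (f i) s (c i) (f (i+1))) (i : ℕ) : ∀ d, i + d ≤ N →
      S.T (f i) (rep d s) (seg c i d) (f (i + d)) := by
  intro d
  induction d with
  | zero => intro _; exact S.refl _
  | succ d ih =>
    intro h
    rw [rep_succ', seg]
    exact S.comp (ih (by omega)) (hs (i+d) (by omega))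

theorem le_length_seg {c : ℕ → List α} : ∀ d, (∀ i, i < d → c i ≠ []) → d ≤ (seg c 0 d).length := by
  intro d
  induction d with
  | zero => intro _; simp
  | succ d ih =>
    intro h
    have h1 := ih (fun i hi => h i (by omega))
    have h2 := List.length_pos_iff.mpr (h d (by omega))
    rw [seg, List.length_append, Nat.zero_add]
    omega

/-- A loop in a long chain, left head. -/
theorem loopL [Finite Q] {s : List α} {a : Q} {v : List α} {b : Q}
    (h : S.T a (rep (Nat.card Q + 1) s) v b) :
    ∃ i d j v1 v2 v3 r, i + d + j = Nat.card Q + 1 ∧ 1 ≤ d ∧ d ≤ Nat.card Q ∧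
      v = v3 ++ (v2 ++ v1) ∧ S.T a (rep i s) v1 r ∧ S.T r (rep d s) v2 r ∧
      S.T r (rep j s) v3 b := by
  obtain ⟨f, c, h0, hn, hs, rfl⟩ := chain _ h
  haveI := Fintype.ofFinite Q
  have hcard : Fintype.card Q < Fintype.card (Fin (Nat.card Q + 1)) := by
    simp [Nat.card_eq_fintype_card]
  obtain ⟨x, y, hne, hxy⟩ := Fintype.exists_ne_map_eq_of_card_lt
    (fun i : Fin (Nat.card Q + 1) => f i) hcard
  have key : ∀ x y : ℕ, x < y → y ≤ Nat.card Q → f x = f y →
      ∃ i d j v1 v2 v3 r, i + d + j = Nat.card Q + 1 ∧ 1 ≤ d ∧ d ≤ Nat.card Q ∧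
      seg c 0 (Nat.card Q + 1) = v3 ++ (v2 ++ v1) ∧ S.T a (rep i s) v1 r ∧
      S.T r (rep d s) v2 r ∧ S.T r (rep j s) v3 b := by
    intro x y hlt hy hf
    refine ⟨x, y - x, Nat.card Q + 1 - y, seg c 0 x, seg c x (y-x),
      seg c y (Nat.card Q + 1 - y), f x, by omega, by omega, by omega, ?_, ?_, ?_, ?_⟩
    · have e1 : Nat.card Q + 1 = x + (Nat.card Q + 1 - x) := by omega
      conv_lhs => rw [e1]
      rw [seg_add]
      have e2 : Nat.card Q + 1 - x = (y - x) + (Nat.card Q + 1 - y) := by omega
      rw [e2, seg_add]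
      have e3 : 0 + x + (y - x) = y := by omega
      rw [e3, Nat.zero_add, List.append_assoc]
    · have := segT hs 0 x (by omega)
      rw [h0, Nat.zero_add] at this
      exact this
    · have := segT hs x (y-x) (by omega)
      have e : x + (y - x) = y := by omega
      rw [e, ← hf] at this
      exact this
    · have := segT hs y (Nat.card Q + 1 - y) (by omega)
      have e : y + (Nat.card Q + 1 - y) = Nat.card Q + 1 := by omega
      rw [e, hn, ← hf] at this
      exact this
  have hx := x.2
  have hy := y.2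
  rcases lt_trichotomy x.1 y.1 with h1 | h1 | h1
  · exact key x y h1 (by omega) hxy
  · exact absurd (Fin.ext h1) hne
  · exact key y x h1 (by omega) hxy.symm

/-- A stationary step in a long chain, left head. -/
theorem statL {s : List α} {n : ℕ} {a : Q} {v : List α} {b : Q}
    (h : S.T a (rep n s) v b) (hv : v.length < n) :
    ∃ i j v1 v2 r r', i + 1 + j = n ∧ v = v2 ++ v1 ∧ S.T a (rep i s) v1 r ∧ S.T r s [] r' ∧
      S.T r' (rep j s) v2 b := by
  obtain ⟨n, rfl⟩ : ∃ n', n = n' + 1 := ⟨n - 1, by omega⟩
  obtain ⟨f, c, h0, hn, hs, rfl⟩ := chain _ h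
  have : ∃ i, i < n + 1 ∧ c i = [] := by
    by_contra hno
    push Not at hno
    have := le_length_seg (n+1) hno
    omega
  obtain ⟨i, hi, hc⟩ := this
  refine ⟨i, n - i, seg c 0 i, seg c (i+1) (n-i), f i, f (i+1), by omega, ?_, ?_, ?_, ?_⟩
  · have e1 : n + 1 = i + (1 + (n - i)) := by omega
    conv_lhs => rw [e1]
    rw [seg_add, seg_add]
    simp [seg, hc]
  · have := segT hs 0 i (by omega)
    rw [h0, Nat.zero_add] at this
    exact this
  · have := hs i hi
    rwa [hc] at this
  · have := segT hs (i+1) (n-i) (by omega)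
    have e : i + 1 + (n - i) = n + 1 := by omega
    rw [e, hn] at this
    exact this

theorem loopR [Finite Q] {s : List α} {a : Q} {u : List α} {b : Q}
    (h : S.T a u (rep (Nat.card Q + 1) s) b) :
    ∃ i d j u1 u2 u3 r, i + d + j = Nat.card Q + 1 ∧ 1 ≤ d ∧ d ≤ Nat.card Q ∧
      u = u1 ++ (u2 ++ u3) ∧ S.T a u1 (rep i s) r ∧ S.T r u2 (rep d s) r ∧
      S.T r u3 (rep j s) b := by
  have h' : S.mirror.T a (rep (Nat.card Q + 1) s.reverse) u.reverse b := by
    show S.T a u.reverse.reverse (rep (Nat.card Q + 1) s.reverse).reverse b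
    rw [rep_reverse, List.reverse_reverse, List.reverse_reverse]
    exact h
  obtain ⟨i, d, j, v1, v2, v3, r, e, h1, h2, hv, t1, t2, t3⟩ := loopL h'
  refine ⟨i, d, j, v1.reverse, v2.reverse, v3.reverse, r, e, h1, h2, ?_, ?_, ?_, ?_⟩
  · have := congrArg List.reverse hv
    simpa using this
  · have : S.T a v1.reverse (rep i s.reverse).reverse r := t1
    rwa [rep_reverse, List.reverse_reverse] at this
  · have : S.T r v2.reverse (rep d s.reverse).reverse r := t2
    rwa [rep_reverse, List.reverse_reverse] at this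
  · have : S.T r v3.reverse (rep j s.reverse).reverse b := t3
    rwa [rep_reverse, List.reverse_reverse] at this

theorem statR {s : List α} {n : ℕ} {a : Q} {u : List α} {b : Q}
    (h : S.T a u (rep n s) b) (hu : u.length < n) :
    ∃ i j u1 u2 r r', i + 1 + j = n ∧ u = u1 ++ u2 ∧ S.T a u1 (rep i s) r ∧ S.T r [] s r' ∧
      S.T r' u2 (rep j s) b := by
  have h' : S.mirror.T a (rep n s.reverse) u.reverse b := by
    show S.T a u.reverse.reverse (rep n s.reverse).reverse b
    rw [rep_reverse, List.reverse_reverse, List.reverse_reverse]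
    exact h
  obtain ⟨i, j, v1, v2, r, r', e, hv, t1, t2, t3⟩ := statL h' (by simpa using hu)
  refine ⟨i, j, v1.reverse, v2.reverse, r, r', e, ?_, ?_, ?_, ?_⟩
  · have := congrArg List.reverse hv
    simpa using this
  · have : S.T a v1.reverse (rep i s.reverse).reverse r := t1
    rwa [rep_reverse, List.reverse_reverse] at this
  · have : S.T r ([] : List α).reverse s.reverse.reverse r' := t2
    simpa using this
  · have : S.T r' v2.reverse (rep j s.reverse).reverse b := t3
    rwa [rep_reverse, List.reverse_reverse] at this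

/-- Pumping a loop. -/
theorem pumpT {r : Q} {u v : List α} (h : S.T r u v r) : ∀ n, S.T r (rep n u) (rep n v) r := by
  intro n
  induction n with
  | zero => exact S.refl r
  | succ n ih =>
    rw [rep_succ n u, rep_succ' n v]
    exact S.comp h ih

/-- The chunk `c` between `X` and `Y` is read by one head of a spine piece. -/
def SEc (S : TT α Q) (K : List α → Prop) (X c Y : List α) : Prop :=
  (∃ y v z q q', Y = y ++ (v ++ z) ∧ S.T q c v q' ∧
    ∀ u' v', S.T q u' v' q' → K (X ++ (u' ++ (y ++ (v' ++ z))))) ∨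
  (∃ x u y q q', X = x ++ (u ++ y) ∧ S.T q u c q' ∧
    ∀ u' v', S.T q u' v' q' → K (x ++ (u' ++ (y ++ (v' ++ Y)))))

theorem SEc.transport {K1 K : List α → Prop} {X c Y l r : List α}
    (hK : ∀ w, K1 w → K (l ++ (w ++ r))) (h : SEc S K1 X c Y) : SEc S K (l ++ X) c (Y ++ r) := by
  rcases h with ⟨y, v, z, q, q', rfl, hT, hR⟩ | ⟨x, u, y, q, q', rfl, hT, hR⟩
  · refine Or.inl ⟨y, v, z ++ r, q, q', by simp, hT, ?_⟩
    intro u' v' h'
    have := hK _ (hR u' v' h')
    simpa [List.append_assoc] using this
  · refine Or.inr ⟨l ++ x, u, y, q, q', by simp, hT, ?_⟩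
    intro u' v' h'
    have := hK _ (hR u' v' h')
    simpa [List.append_assoc] using this

/-- In a long concatenation of nonempty chunks, some chunk is read by one head. -/
def Ex (S : TT α Q) (K : List α → Prop) : Prop :=
  ∃ B : ℕ, ∀ (P : List α) (cs : List (List α)) (W : List α), (∀ c ∈ cs, c ≠ []) →
    B ≤ cs.length → K (P ++ (cs.flatten ++ W)) →
    ∃ cs1 c cs2, cs = cs1 ++ c :: cs2 ∧ SEc S K (P ++ cs1.flatten) c (cs2.flatten ++ W)

end TT

end Pool.Agent.TH297.PK
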