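import Mathlib
import Pool.Agent.TH297.PK.B
set_option autoImplicit false

namespace Pool.Agent.TH297.PK

open Pool.Agent.Results.MP_5ca50a_lc.SmallExponents

variable {α : Type}

theorem cut (W w1 w2 : List α) : ∀ (cs : List (List α)) (P : List α),
    P ++ (cs.flatten ++ W) = w1 ++ w2 →
    (∃ P2, P = w1 ++ P2 ∧ w2 = P2 ++ (cs.flatten ++ W)) ∨
    (∃ W1, w1 = P ++ (cs.flatten ++ W1) ∧ W = W1 ++ w2) ∨
    (∃ cs1 c cs2 c1 c2, cs = cs1 ++ c :: cs2 ∧ c = c1 ++ c2 ∧ w1 = P ++ (cs1.flatten ++ c1) ∧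
      w2 = c2 ++ (cs2.flatten ++ W))
  | [], P, h => by
    simp only [List.flatten_nil, List.nil_append] at h ⊢
    rcases List.append_eq_append_iff.mp h with ⟨a, h1, h2⟩ | ⟨c, h1, h2⟩
    · exact Or.inr (Or.inl ⟨a, h1, h2⟩)
    · exact Or.inl ⟨c, h1, h2⟩
  | c :: cs, P, h => by
    have h' : (P ++ c) ++ (cs.flatten ++ W) = w1 ++ w2 := by
      rw [← h]; simp
    rcases cut W w1 w2 cs (P ++ c) h' with ⟨P2, h1, h2⟩ | ⟨W1, h1, h2⟩ |
      ⟨cs1, d, cs2, c1, c2, h1, h2, h3, h4⟩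
    · rcases List.append_eq_append_iff.mp h1 with ⟨a, e1, e2⟩ | ⟨b, e1, e2⟩
      · exact Or.inr (Or.inr ⟨[], c, cs, a, P2, rfl, e2, by simpa using e1, h2⟩)
      · refine Or.inl ⟨b, e1, ?_⟩
        rw [h2, e2]; simp
    · exact Or.inr (Or.inl ⟨W1, by rw [h1]; simp, h2⟩)
    · exact Or.inr (Or.inr ⟨c :: cs1, d, cs2, c1, c2, by rw [h1]; rfl, h2, by rw [h3]; simp, h4⟩)

theorem length_le_flatten : ∀ (cs : List (List α)), (∀ c ∈ cs, c ≠ []) →
    cs.length ≤ cs.flatten.length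
  | [], _ => by simp
  | c :: cs, h => by
    have h1 := length_le_flatten cs (fun d hd => h d (List.mem_cons_of_mem _ hd))
    have h2 := List.length_pos_iff.mpr (h c (by simp))
    simp only [List.length_cons, List.flatten_cons, List.length_append]
    omega

namespace TT

variable {Q : Type} {S : TT α Q}

theorem Ex.short {K : List α → Prop} (h : ∀ w, K w → w.length ≤ 1) : Ex S K := by
  refine ⟨2, fun P cs W hne hlen hK => ?_⟩
  exfalso
  have h1 := h _ hK
  have h2 := length_le_flatten cs hne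
  simp only [List.length_append] at h1
  omega

theorem Ex.congr {K K' : List α → Prop} (h : Ex S K) (hK : ∀ w, K w ↔ K' w) : Ex S K' := by
  have : K = K' := funext fun w => propext (hK w)
  rwa [← this]

theorem SEc.mono' {K1 K : List α → Prop} {X c Y X' Y' : List α} (l r : List α)
    (hX : X' = l ++ X) (hY : Y' = Y ++ r)
    (hK : ∀ w, K1 w → K (l ++ (w ++ r))) (h : SEc S K1 X c Y) : SEc S K X' c Y' := by
  subst hX hY
  exact SEc.transport hK h

theorem Ex.prod {K1 K2 : List α → Prop} (h1 : Ex S K1) (h2 : Ex S K2) :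
    Ex S (fun w => ∃ w1 w2, w = w1 ++ w2 ∧ K1 w1 ∧ K2 w2) := by
  obtain ⟨B1, hB1⟩ := h1
  obtain ⟨B2, hB2⟩ := h2
  refine ⟨B1 + B2 + 1, ?_⟩
  rintro P cs W hne hlen ⟨w1, w2, he, hK1, hK2⟩
  rcases cut W w1 w2 cs P he with ⟨P2, e1, e2⟩ | ⟨W1, e1, e2⟩ | ⟨cs1, c, cs2, c1, c2, e0, e1, e2, e3⟩
  · rw [e2] at hK2
    obtain ⟨a1, d, a2, ha, hS⟩ := hB2 P2 cs W hne (by omega) hK2
    refine ⟨a1, d, a2, ha, hS.mono' w1 [] (by rw [e1]; simp) (by simp) ?_⟩
    intro w hw
    exact ⟨w1, w, by simp, hK1, hw⟩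
  · rw [e1] at hK1
    obtain ⟨a1, d, a2, ha, hS⟩ := hB1 P cs W1 hne (by omega) hK1
    refine ⟨a1, d, a2, ha, hS.mono' [] w2 (by simp) (by rw [e2]; simp) ?_⟩
    intro w hw
    exact ⟨w, w2, by simp, hw, hK2⟩
  · subst e0
    simp only [List.length_append, List.length_cons] at hlen
    by_cases hc : B1 ≤ cs1.length
    · rw [e2] at hK1
      obtain ⟨a1, d, a2, ha, hS⟩ := hB1 P cs1 c1 (fun x hx => hne x (by simp [hx])) hc hK1
      refine ⟨a1, d, a2 ++ c :: cs2, by rw [ha]; simp, hS.mono' [] w2 (by simp) ?_ ?_⟩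
      · rw [e3, e1]; simp
      · intro w hw
        exact ⟨w, w2, by simp, hw, hK2⟩
    · rw [e3] at hK2
      obtain ⟨a1, d, a2, ha, hS⟩ := hB2 c2 cs2 W (fun x hx => hne x (by simp [hx])) (by omega) hK2
      refine ⟨cs1 ++ c :: a1, d, a2, by rw [ha]; simp, hS.mono' w1 [] ?_ (by simp) ?_⟩
      · rw [e2, e1]; simp
      · intro w hw
        exact ⟨w1, w, by simp, hK1, hw⟩

/-- The left head reads a chunk. -/
theorem SEc.uCase {K : List α → Prop} {q0 q : Q} {P d u' v w' : List α}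
    (hT : S.T q0 (P ++ (d ++ u')) v q)
    (hK : ∀ u v, S.T q0 u v q → K (u ++ (w' ++ v))) :
    SEc S K P d (u' ++ (w' ++ v)) := by
  obtain ⟨r0, v0, v', rfl, t0, t1⟩ := S.splitL hT
  obtain ⟨r1, v1, v2, rfl, t2, t3⟩ := S.splitL t1
  refine Or.inl ⟨u' ++ (w' ++ v2), v1, v0, r0, r1, by simp, t2, ?_⟩
  intro u'' v'' h
  have := hK _ _ (S.comp t0 (S.comp h t3))
  simpa [List.append_assoc] using this

theorem SEc.vCase {K : List α → Prop} {q0 q : Q} {u v' d W w' : List α}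
    (hT : S.T q0 u (v' ++ (d ++ W)) q)
    (hK : ∀ u v, S.T q0 u v q → K (u ++ (w' ++ v))) :
    SEc S K (u ++ (w' ++ v')) d W := by
  rw [← List.append_assoc] at hT
  obtain ⟨r0, u0, u', rfl, t0, t1⟩ := S.splitR hT
  obtain ⟨r1, u1, u2, rfl, t2, t3⟩ := S.splitR t1
  refine Or.inr ⟨u0, u1, u2 ++ (w' ++ v'), r0, r1, by simp, t2, ?_⟩
  intro u'' v'' h
  have := hK _ _ (S.comp t0 (S.comp h t3))
  simpa [List.append_assoc] using this

theorem Ex.iUnion {J : Type} [Finite J] {Kj : J → List α → Prop} (h : ∀ j, Ex S (Kj j)) :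
    Ex S (fun w => ∃ j, Kj j w) := by
  haveI := Fintype.ofFinite J
  choose B hB using h
  refine ⟨Finset.univ.sup B, ?_⟩
  rintro P cs W hne hlen ⟨j, hj⟩
  have hj' : B j ≤ Finset.univ.sup B := Finset.le_sup (Finset.mem_univ j)
  obtain ⟨a1, d, a2, ha, hS⟩ := hB j P cs W hne (hj'.trans hlen) hj
  refine ⟨a1, d, a2, ha, hS.mono' [] [] (by simp) (by simp) ?_⟩
  intro w hw
  exact ⟨j, by simpa using hw⟩

theorem Ex.lin {J : Type} [Finite J] {Kj : J → List α → Prop} (e : J → Q) (q0 : Q)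
    (h : ∀ j, Ex S (Kj j)) :
    Ex S (fun w => ∃ j, ∃ u w' v, w = u ++ (w' ++ v) ∧ S.T q0 u v (e j) ∧ Kj j w') := by
  haveI := Fintype.ofFinite J
  choose B hB using h
  refine ⟨Finset.univ.sup B + 2, ?_⟩
  rintro P cs W hne hlen ⟨j, u, w', v, he, hT, hw'⟩
  have hj' : B j ≤ Finset.univ.sup B := Finset.le_sup (Finset.mem_univ j)
  have hlen' : B j + 2 ≤ cs.length := by omega
  clear hlen hj'
  set K : List α → Prop := fun w => ∃ j, ∃ u w' v, w = u ++ (w' ++ v) ∧ S.T q0 u v (e j) ∧ Kj j w'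
    with hKdef
  have hK1 : ∀ u v, S.T q0 u v (e j) → K (u ++ (w' ++ v)) :=
    fun u v h => ⟨j, u, w', v, rfl, h, hw'⟩
  -- second phase
  have phase2 : ∀ (cs0 cs' : List (List α)) (P' : List α), cs = cs0 ++ cs' →
      B j + 1 ≤ cs'.length → u ++ P' = P ++ cs0.flatten →
      w' ++ v = P' ++ (cs'.flatten ++ W) →
      ∃ cs1 c cs2, cs = cs1 ++ c :: cs2 ∧ SEc S K (P ++ cs1.flatten) c (cs2.flatten ++ W) := by
    intro cs0 cs' P' hcs hl hP' hwv
    -- v-case for a nonempty list of chunks at the right end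
    have vcase : ∀ (b0 b1 : List (List α)) (v' : List α), cs = b0 ++ b1 → b1 ≠ [] →
        v = v' ++ (b1.flatten ++ W) → u ++ (w' ++ v') = P ++ b0.flatten →
        ∃ cs1 c cs2, cs = cs1 ++ c :: cs2 ∧
          SEc S K (P ++ cs1.flatten) c (cs2.flatten ++ W) := by
      intro b0 b1 v' hb hb1 hv hu
      obtain ⟨b2, d, rfl⟩ : ∃ b2 d, b1 = b2 ++ [d] :=
        ⟨b1.dropLast, b1.getLast hb1, (List.dropLast_append_getLast hb1).symm⟩
      refine ⟨b0 ++ b2, d, [], by rw [hb]; simp, ?_⟩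
      have hT' : S.T q0 u ((v' ++ b2.flatten) ++ (d ++ W)) (e j) := by
        rw [hv] at hT
        simpa [List.append_assoc] using hT
      have := SEc.vCase (K := K) hT' hK1
      have e1 : u ++ (w' ++ (v' ++ b2.flatten)) = P ++ (b0 ++ b2).flatten := by
        rw [List.flatten_append, ← List.append_assoc P, ← hu]; simp
      rw [e1] at this
      simpa using this
    rcases cut W w' v cs' P' hwv.symm with ⟨P3, e1, e2⟩ | ⟨W1, e1, e2⟩ |
      ⟨b1, c', b2, c1, c2, e0, e1, e2, e3⟩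
    · refine vcase cs0 cs' P3 hcs ?_ e2 ?_
      · rintro rfl; simp at hl
      · rw [← e1]; exact hP'
    · rw [e1] at hw'
      obtain ⟨a1, d, a2, ha, hS⟩ := hB j P' cs' W1
        (fun x hx => hne x (by rw [hcs]; simp [hx])) (by omega) hw'
      refine ⟨cs0 ++ a1, d, a2, by rw [hcs, ha]; simp, hS.mono' u v ?_ ?_ ?_⟩
      · rw [List.flatten_append, ← List.append_assoc, ← hP']; simp
      · rw [e2]; simp
      · intro w hw
        exact ⟨j, u, w, v, rfl, hT, hw⟩
    · by_cases hb2 : b2 = []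
      · subst hb2
        rw [e0] at hl
        simp only [List.length_append, List.length_cons, List.length_nil] at hl
        rw [e2] at hw'
        obtain ⟨a1, d, a2, ha, hS⟩ := hB j P' b1 c1
          (fun x hx => hne x (by rw [hcs, e0]; simp [hx])) (by omega) hw'
        refine ⟨cs0 ++ a1, d, a2 ++ [c'], by rw [hcs, e0, ha]; simp, hS.mono' u v ?_ ?_ ?_⟩
        · rw [List.flatten_append, ← List.append_assoc, ← hP']; simp
        · rw [e3, e1]; simp
        · intro w hw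
          exact ⟨j, u, w, v, rfl, hT, hw⟩
      · refine vcase (cs0 ++ b1 ++ [c']) b2 c2 (by rw [hcs, e0]; simp) hb2 e3 ?_
        rw [e2]
        have : P ++ (cs0 ++ b1 ++ [c']).flatten = (P ++ cs0.flatten) ++ (b1.flatten ++ c') := by
          simp
        rw [this, ← hP', e1]
        simp
  rcases cut W u (w' ++ v) cs P he with ⟨P2, e1, e2⟩ | ⟨W1, e1, e2⟩ |
    ⟨cs1, c, cs2, c1, c2, e0, e1, e2, e3⟩
  · exact phase2 [] cs P2 rfl (by omega) (by simpa using e1.symm) e2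
  · rcases cs with _ | ⟨d, cs⟩
    · simp at hlen'
    · refine ⟨[], d, cs, rfl, ?_⟩
      have hT' : S.T q0 (P ++ (d ++ (cs.flatten ++ W1))) v (e j) := by
        rw [e1] at hT
        simpa [List.append_assoc] using hT
      have := SEc.uCase (K := K) hT' hK1
      rw [e2]
      simpa [List.append_assoc] using this
  · by_cases hcs1 : cs1 = []
    · subst hcs1
      refine phase2 [c] cs2 c2 (by rw [e0]; rfl) ?_ ?_ e3
      · rw [e0] at hlen'
        simp only [List.nil_append, List.length_cons] at hlen'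
        omega
      · rw [e2, e1]; simp
    · obtain ⟨d, cs1', rfl⟩ : ∃ d cs1', cs1 = d :: cs1' := by
        rcases cs1 with _ | ⟨d, cs1'⟩
        · exact absurd rfl hcs1
        · exact ⟨d, cs1', rfl⟩
      refine ⟨[], d, cs1' ++ c :: cs2, by rw [e0]; rfl, ?_⟩
      have hT' : S.T q0 (P ++ (d ++ (cs1'.flatten ++ c1))) v (e j) := by
        rw [e2] at hT
        simpa [List.append_assoc] using hT
      have := SEc.uCase (K := K) hT' hK1
      rw [e3] at this
      have e4 : (cs1' ++ c :: cs2).flatten ++ W = (cs1'.flatten ++ c1) ++ (c2 ++ (cs2.flatten ++ W)) := by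
        rw [e1]; simp
      rw [e4]
      simpa using this

end TT

end Pool.Agent.TH297.PK
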