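import Mathlib
import Pool.Agent.TH297.PK.C
set_option autoImplicit false

namespace Pool.Agent.TH297.PK

open Pool.Agent.Results.MP_5ca50a_lc.SmallExponents

variable {α : Type}

theorem flatten_of_const {c : List α} : ∀ cs : List (List α), (∀ x ∈ cs, x = c) →
    cs.flatten = rep cs.length c
  | [], _ => rfl
  | x :: cs, h => by
    rw [List.flatten_cons, flatten_of_const cs (fun y hy => h y (List.mem_cons_of_mem _ hy)),
      h x (by simp), List.length_cons, rep_succ]

namespace TT

variable {Q : Type} {S : TT α Q}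

theorem pump1 [Finite Q] {k : ℕ} {L : List α → Prop} (hP : PK k L) (hEx : Ex S L)
    {s : List α} (hs : s ≠ []) :
    ∃ N, ∀ n, N ≤ n → ∀ P W, L (P ++ (rep n s ++ W)) →
      ∃ d, 1 ≤ d ∧ d ≤ Nat.card Q ∧ ∀ i, L (P ++ (rep (n + k * d * i) s ++ W)) := by
  obtain ⟨B, hB⟩ := hEx
  set q := Nat.card Q with hq
  refine ⟨B * (q + 1), ?_⟩
  intro n hn P W hL
  have hc : rep (q+1) s ≠ [] := by
    rw [rep_succ]
    simp [hs]
  have e0 : rep n s = rep B (rep (q+1) s) ++ rep (n - B * (q+1)) s := by
    rw [rep_rep', ← rep_add]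
    congr 1
    omega
  have hL' : L (P ++ ((List.replicate B (rep (q+1) s)).flatten ++ (rep (n - B*(q+1)) s ++ W))) := by
    rw [e0] at hL
    show L (P ++ (rep B (rep (q+1) s) ++ (rep (n - B*(q+1)) s ++ W)))
    simpa [List.append_assoc] using hL
  obtain ⟨cs1, c, cs2, hcs, hS⟩ := hB P _ _ (fun x hx => by
    rw [List.eq_of_mem_replicate hx]; exact hc) (by simp) hL'
  have hmem : ∀ x ∈ cs1 ++ c :: cs2, x = rep (q+1) s := by
    intro x hx
    rw [← hcs] at hx
    exact List.eq_of_mem_replicate hx
  have h1 : cs1.flatten = rep (cs1.length * (q+1)) s := by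
    rw [flatten_of_const (c := rep (q+1) s) cs1 (fun x hx => hmem x (by simp [hx])), rep_rep']
  have h2 : cs2.flatten = rep (cs2.length * (q+1)) s := by
    rw [flatten_of_const (c := rep (q+1) s) cs2 (fun x hx => hmem x (by simp [hx])), rep_rep']
  have h3 : c = rep (q+1) s := hmem c (by simp)
  have hlen : B = cs1.length + 1 + cs2.length := by
    have := congrArg List.length hcs
    simp only [List.length_replicate, List.length_append, List.length_cons] at this
    omega
  subst h3
  have hfin : ∀ d i : ℕ,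
      L ((P ++ cs1.flatten) ++ (rep (q + 1 + k * d * i) s ++
        (cs2.flatten ++ (rep (n - B*(q+1)) s ++ W)))) →
      L (P ++ (rep (n + k * d * i) s ++ W)) := by
    intro d i h
    rw [h1, h2] at h
    have e : rep (n + k * d * i) s = rep (cs1.length * (q+1)) s ++ (rep (q + 1 + k * d * i) s ++
        (rep (cs2.length * (q+1)) s ++ rep (n - B*(q+1)) s)) := by
      rw [← rep_add, ← rep_add, ← rep_add]
      congr 1
      have : B * (q+1) = cs1.length * (q+1) + (q+1) + cs2.length * (q+1) := by
        rw [hlen]; ring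
      omega
    rw [e]
    simpa [List.append_assoc] using h
  rcases hS with ⟨y, v, z, a, b, hY, hT, hR⟩ | ⟨x, u, y, a, b, hX, hT, hR⟩
  · obtain ⟨i, d, j, v1, v2, v3, r, e, hd1, hd2, rfl, t1, t2, t3⟩ := loopL hT
    refine ⟨d, hd1, hd2, fun i' => hfin d i' ?_⟩
    have hpump : ∀ t, L (P ++ cs1.flatten ++ ((rep i s ++ (rep t (rep d s) ++ rep j s)) ++
        (y ++ (((v3 ++ rep t v2) ++ v1) ++ z)))) := by
      intro t
      exact hR _ _ (S.comp t1 (S.comp (pumpT t2 t) t3))
    have := hP.all (P ++ cs1.flatten ++ rep i s ++ rep d s) (rep d s) (rep j s ++ y ++ v3) v2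
      (v2 ++ v1 ++ z) (fun n' hn' => by
        have := hpump (n' + 1)
        rw [rep_succ n' (rep d s), rep_succ' n' v2] at this
        simpa [List.append_assoc] using this) i' 0
    rw [hY]
    have e1 : rep (q + 1 + k * d * i') s = rep i s ++ (rep d s ++ (rep (k * i') (rep d s) ++
        rep j s)) := by
      rw [rep_rep', ← rep_add, ← rep_add, ← rep_add]
      congr 1
      rw [← e]; ring
    rw [e1]
    simpa [List.append_assoc] using this
  · obtain ⟨i, d, j, u1, u2, u3, r, e, hd1, hd2, rfl, t1, t2, t3⟩ := loopR hT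
    refine ⟨d, hd1, hd2, fun i' => hfin d i' ?_⟩
    have hpump : ∀ t, L (x ++ ((u1 ++ (rep t u2 ++ u3)) ++ (y ++ (((rep j s ++ rep t (rep d s)) ++
        rep i s) ++ (cs2.flatten ++ (rep (n - B*(q+1)) s ++ W)))))) := by
      intro t
      exact hR _ _ (S.comp t1 (S.comp (pumpT t2 t) t3))
    have := hP.all (x ++ u1 ++ u2) u2 (u3 ++ y ++ rep j s) (rep d s)
      (rep d s ++ rep i s ++ (cs2.flatten ++ (rep (n - B*(q+1)) s ++ W))) (fun n' hn' => by
        have := hpump (n' + 1)
        rw [rep_succ n' u2, rep_succ' n' (rep d s)] at this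
        simpa [List.append_assoc] using this) 0 i'
    rw [hX]
    have e1 : rep (q + 1 + k * d * i') s = rep j s ++ (rep (k * i') (rep d s) ++
        (rep d s ++ rep i s)) := by
      rw [rep_rep', ← rep_add, ← rep_add, ← rep_add]
      congr 1
      rw [← e]; ring
    rw [e1]
    simpa [List.append_assoc] using this

/-- Deletion of `m`-th powers of `s`. -/
theorem del [Finite Q] {k : ℕ} (hk : 1 ≤ k) {L : List α → Prop} (hP : PK k L) (hEx : Ex S L)
    {s : List α} (hs : s ≠ []) :
    ∃ m, 0 < m ∧ ∀ P W, L (P ++ (rep m s ++ W)) → L (P ++ W) := by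
  obtain ⟨N, hN⟩ := pump1 hP hEx hs
  refine ⟨k * (Nat.card Q).factorial * (N + 1), by positivity, ?_⟩
  intro P W hL
  set m := k * (Nat.card Q).factorial * (N + 1) with hm
  have hmN : N ≤ m := by
    have h1 : 1 ≤ k * (Nat.card Q).factorial := Nat.mul_pos hk (Nat.factorial_pos _)
    calc N ≤ 1 * (N + 1) := by omega
      _ ≤ m := Nat.mul_le_mul_right _ h1
  obtain ⟨d, hd1, hd2, hd⟩ := hN m hmN P W hL
  obtain ⟨c, hc⟩ : d ∣ (Nat.card Q).factorial := Nat.dvd_factorial hd1 hd2
  have := hP.one P (rep m s) W (fun n hn => by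
    obtain ⟨n, rfl⟩ : ∃ n', n = n' + 1 := ⟨n - 1, by omega⟩
    have := hd (n * (c * (N + 1)))
    rw [rep_rep']
    have e : (n + 1) * m = m + k * d * (n * (c * (N+1))) := by
      rw [hm, hc]; ring
    rw [e]
    simpa [List.append_assoc] using this)
  exact this

theorem del' {L : List α → Prop} {m : ℕ} {s : List α}
    (hdel : ∀ P W, L (P ++ (rep m s ++ W)) → L (P ++ W)) (j : ℕ) :
    ∀ P W, L (P ++ (rep (m * j) s ++ W)) → L (P ++ W) := by
  induction j with
  | zero => intro P W h; simpa using h
  | succ j ih =>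
    intro P W h
    rw [Nat.mul_succ, rep_add] at h
    have h2 : L ((P ++ rep (m*j) s) ++ (rep m s ++ W)) := by simpa [List.append_assoc] using h
    have := hdel _ _ h2
    exact ih P W (by simpa [List.append_assoc] using this)

end TT

/-- `v` is read in the periodic word `t^∞` from position `i` on. -/
def Per (t : List α) (i : ℕ) (v : List α) : Prop :=
  ∀ j, j < v.length → v[j]? = t[(i + j) % t.length]?

theorem Per.append {t : List α} {i : ℕ} {v1 v2 : List α} :
    Per t i (v1 ++ v2) ↔ Per t i v1 ∧ Per t (i + v1.length) v2 := by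
  constructor
  · intro h
    refine ⟨fun j hj => ?_, fun j hj => ?_⟩
    · rw [← h j (by simp; omega), List.getElem?_append_left hj]
    · have := h (v1.length + j) (by simp; omega)
      rw [List.getElem?_append_right (by omega)] at this
      have e : v1.length + j - v1.length = j := by omega
      rw [e] at this
      rw [this]
      congr 2
      omega
  · rintro ⟨h1, h2⟩ j hj
    by_cases hj1 : j < v1.length
    · rw [List.getElem?_append_left hj1]
      exact h1 j hj1
    · rw [List.getElem?_append_right (by omega)]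
      rw [h2 (j - v1.length) (by simp only [List.length_append] at hj; omega)]
      congr 2
      omega

theorem Per.nil (t : List α) (i : ℕ) : Per t i [] := fun j hj => by simp at hj

theorem Per.congr {t : List α} {i i' : ℕ} (h : i % t.length = i' % t.length) {v : List α}
    (hv : Per t i v) : Per t i' v := by
  intro j hj
  rw [hv j hj, Nat.add_mod, h, ← Nat.add_mod]

theorem per_rep (t : List α) : ∀ n, Per t 0 (rep n t)
  | 0 => Per.nil t 0
  | n + 1 => by
    rw [rep_succ, Per.append]
    refine ⟨fun j hj => ?_, ?_⟩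
    · rw [Nat.zero_add, Nat.mod_eq_of_lt hj]
    · refine Per.congr (i := 0) (by simp) (per_rep t n)

theorem Per.unique {t : List α} {i : ℕ} {v v' : List α} (h : Per t i v) (h' : Per t i v')
    (hl : v.length = v'.length) : v = v' := by
  apply List.ext_getElem?
  intro j
  by_cases hj : j < v.length
  · rw [h j hj, h' j (by omega)]
  · rw [List.getElem?_eq_none (by omega), List.getElem?_eq_none (by omega)]

theorem Per.eq_rep {t : List α} {v : List α} (h : Per t 0 v) {n : ℕ}
    (hl : v.length = n * t.length) : v = rep n t :=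
  h.unique (per_rep t n) (by rw [hl, length_rep])

end Pool.Agent.TH297.PK
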