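import Mathlib
import Pool.Agent.TH297.PK.D
set_option autoImplicit false

namespace Pool.Agent.TH297.PK

open Pool.Agent.Results.MP_5ca50a_lc.SmallExponents

variable {α : Type}

/-- A homomorphism from words to a finite monoid. -/
structure FM (α : Type) where
  M : Type
  mon : Monoid M
  fin : Finite M
  φ : List α → M
  one : φ [] = 1
  mul : ∀ x y, φ (x ++ y) = φ x * φ y

attribute [instance] FM.mon FM.fin

theorem exists_FM (r : List α → List α → Prop) (hrefl : ∀ x, r x x)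
    (hsymm : ∀ {x y}, r x y → r y x) (htrans : ∀ {x y z}, r x y → r y z → r x z)
    (hmul : ∀ {w x y z}, r w x → r y z → r (w ++ y) (x ++ z)) {X : Type} [Finite X]
    (f : List α → X) (hf : ∀ x y, f x = f y → r x y) :
    ∃ F : FM α, ∀ x y, F.φ x = F.φ y → r x y := by
  let c : Con (FreeMonoid α) :=
    { r := fun x y => r x.toList y.toList
      iseqv := ⟨fun x => hrefl _, fun h => hsymm h, fun h1 h2 => htrans h1 h2⟩
      mul' := fun h1 h2 => hmul h1 h2 }
  have hfin : Finite c.Quotient := by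
    refine Finite.of_injective (fun q : c.Quotient => f (Quotient.out q).toList) ?_
    intro a b hab
    have h1 : r (Quotient.out a).toList (Quotient.out b).toList := hf _ _ hab
    have h2 : ((Quotient.out a : FreeMonoid α) : c.Quotient) =
        ((Quotient.out b : FreeMonoid α) : c.Quotient) := (Con.eq c).mpr h1
    have e1 : ((Quotient.out a : FreeMonoid α) : c.Quotient) = a := Quotient.out_eq _
    have e2 : ((Quotient.out b : FreeMonoid α) : c.Quotient) = b := Quotient.out_eq _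
    rw [e1, e2] at h2
    exact h2
  refine ⟨⟨c.Quotient, inferInstance, hfin, fun x => (FreeMonoid.ofList x : c.Quotient), rfl,
    fun x y => rfl⟩, ?_⟩
  intro x y h
  exact (Con.eq c).mp h

namespace FM

variable (F : FM α)

theorem φ_rep (n : ℕ) (x : List α) : F.φ (rep n x) = F.φ x ^ n := by
  induction n with
  | zero => simp [F.one]
  | succ n ih => rw [rep_succ, F.mul, ih, pow_succ']

end FM

theorem exists_idem_pow {M : Type} [Monoid M] [Finite M] (a : M) :
    ∃ n, 1 ≤ n ∧ a ^ n * a ^ n = a ^ n := by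
  obtain ⟨x, y, hne, hxy⟩ := Finite.exists_ne_map_eq_of_infinite (fun n : ℕ => a ^ n)
  have key : ∀ i j : ℕ, i < j → a ^ i = a ^ j → ∃ n, 1 ≤ n ∧ a ^ n * a ^ n = a ^ n := by
    intro i j hij h
    obtain ⟨p, rfl⟩ : ∃ p, j = i + p := ⟨j - i, by omega⟩
    have hp : 1 ≤ p := by omega
    have h1 : ∀ n, i ≤ n → a ^ n = a ^ (n + p) := by
      intro n hn
      obtain ⟨d, rfl⟩ : ∃ d, n = i + d := ⟨n - i, by omega⟩
      rw [pow_add, h, ← pow_add]
      congr 1
      omega
    have h2 : ∀ c n, i ≤ n → a ^ n = a ^ (n + p * c) := by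
      intro c
      induction c with
      | zero => intro n _; simp
      | succ c ih =>
        intro n hn
        rw [ih n hn, h1 _ (by omega)]
        congr 1
        ring
    refine ⟨p * (i + 1), Nat.mul_pos hp (by omega), ?_⟩
    rw [← pow_add]
    refine (h2 (i+1) (p * (i+1)) ?_).symm
    calc i ≤ 1 * (i + 1) := by omega
      _ ≤ p * (i + 1) := Nat.mul_le_mul_right _ hp
  rcases lt_or_gt_of_ne hne with h | h
  · exact key x y h hxy
  · exact key y x h hxy.symm

theorem exists_min_idem {M : Type} [Monoid M] [Finite M] (A : Set M) (hne : A.Nonempty)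
    (hmul : ∀ x ∈ A, ∀ y ∈ A, x * y ∈ A) :
    ∃ e ∈ A, e * e = e ∧ ∀ x ∈ A, ∃ N, 1 ≤ N ∧ (e * x * e) ^ N = e := by
  classical
  have hpow : ∀ x ∈ A, ∀ n, x ^ (n + 1) ∈ A := by
    intro x hx n
    induction n with
    | zero => simpa using hx
    | succ n ih => rw [pow_succ]; exact hmul _ ih _ hx
  let Sf : M → Set M := fun e => (fun x => e * x * e) '' A
  have hex : ∃ n, ∃ e ∈ A, e * e = e ∧ (Sf e).ncard = n := by
    obtain ⟨a, ha⟩ := hne
    obtain ⟨n, hn, h⟩ := exists_idem_pow a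
    refine ⟨_, a ^ n, ?_, h, rfl⟩
    obtain ⟨n, rfl⟩ : ∃ n', n = n' + 1 := ⟨n - 1, by omega⟩
    exact hpow a ha n
  obtain ⟨e, heA, hee, hcard⟩ := Nat.find_spec hex
  refine ⟨e, heA, hee, ?_⟩
  intro x hx
  set y := e * x * e with hy
  have hyA : y ∈ A := hmul _ (hmul _ heA _ hx) _ heA
  obtain ⟨N, hN, hf⟩ := exists_idem_pow y
  obtain ⟨N, rfl⟩ : ∃ n', N = n' + 1 := ⟨N - 1, by omega⟩
  refine ⟨N + 1, by omega, ?_⟩
  set f := y ^ (N + 1) with hfdef
  have hfA : f ∈ A := hpow y hyA N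
  have hey : e * y = y := by rw [hy, ← mul_assoc, ← mul_assoc, hee]
  have hye : y * e = y := by rw [hy, mul_assoc, hee]
  have hef : e * f = f := by rw [hfdef, pow_succ', ← mul_assoc, hey]
  have hfe : f * e = f := by rw [hfdef, pow_succ, mul_assoc, hye]
  have hsub : Sf f ⊆ Sf e := by
    rintro _ ⟨z, hz, rfl⟩
    refine ⟨f * z * f, hmul _ (hmul _ hfA _ hz) _ hfA, ?_⟩
    show e * (f * z * f) * e = f * z * f
    rw [← mul_assoc, ← mul_assoc, hef, mul_assoc (f * z), hfe]
  have hle : (Sf e).ncard ≤ (Sf f).ncard := by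
    rw [hcard]
    exact Nat.find_min' hex ⟨f, hfA, hf, rfl⟩
  have heq := Set.eq_of_subset_of_ncard_le hsub hle (Set.toFinite _)
  have hemem : e ∈ Sf f := by
    rw [heq]
    exact ⟨e, heA, by show e * e * e = e; rw [hee, hee]⟩
  obtain ⟨z, hz, hze⟩ := hemem
  have hze' : f * z * f = e := hze
  have : f * e = e := by
    rw [← hze', ← mul_assoc, ← mul_assoc, hf]
  rw [← hfe, this]

namespace FM

variable (F : FM α)

theorem exists_min (D : Set (List α)) (hne : D.Nonempty)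
    (hmul : ∀ x ∈ D, ∀ y ∈ D, x ++ y ∈ D) :
    ∃ c ∈ D, F.φ c * F.φ c = F.φ c ∧
      ∀ x ∈ D, ∃ N, 1 ≤ N ∧ (F.φ c * F.φ x * F.φ c) ^ N = F.φ c := by
  obtain ⟨e, ⟨c, hc, rfl⟩, h1, h2⟩ := exists_min_idem (F.φ '' D) (hne.image _) (by
    rintro _ ⟨x, hx, rfl⟩ _ ⟨y, hy, rfl⟩
    exact ⟨x ++ y, hmul x hx y hy, F.mul x y⟩)
  exact ⟨c, hc, h1, fun x hx => h2 _ ⟨x, hx, rfl⟩⟩

/-- The algebra behind the replacement argument. -/
theorem alg {k : ℕ} {L : List α → Prop} (hP : PK k L) {P U V Z c κ δ : List α}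
    (he : F.φ c * F.φ c = F.φ c) (hκ : F.φ κ = F.φ δ) {N1 : ℕ} (hN1 : 1 ≤ N1)
    (hN : (F.φ c * F.φ δ * F.φ c) ^ N1 = F.φ c)
    (hU : F.φ U = 1 ∨ F.φ U = F.φ c) (hV : F.φ V = 1 ∨ F.φ V = F.φ c)
    (h : ∀ κ', F.φ κ' = F.φ c → L (P ++ (U ++ (κ' ++ (V ++ (δ ++ Z)))))) :
    L (P ++ κ ++ Z) := by
  set e := F.φ c with hedef
  set ζ := F.φ δ with hζ
  have hue : F.φ U * e = e := by rcases hU with h | h <;> rw [h] <;> simp [he]
  have hev : e * F.φ V = e := by rcases hV with h | h <;> rw [h] <;> simp [he]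
  have hepow : ∀ n, e * e ^ n = e := by
    intro n
    induction n with
    | zero => simp
    | succ n ih => rw [pow_succ, ← mul_assoc, ih, he]
  have hpow2 : ∀ n, (e * ζ) ^ n * e = e * (e * ζ * e) ^ n := by
    intro n
    induction n with
    | zero => simp
    | succ n ih =>
      rw [pow_succ', mul_assoc, ih, pow_succ']
      have : e * ζ * (e * (e * ζ * e) ^ n) = (e * e) * ζ * (e * (e * ζ * e) ^ n) := by rw [he]
      rw [this]
      simp only [mul_assoc]
  have key : ∀ n, 1 ≤ n → L (P ++ rep n (rep N1 (U ++ c)) ++ κ ++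
      rep n (rep N1 (c ++ (V ++ δ))) ++ Z) := by
    intro n hn
    obtain ⟨N, hNN⟩ : ∃ N, n * N1 = N + 1 := ⟨n * N1 - 1, by
      have : 1 ≤ n * N1 := Nat.mul_pos hn hN1
      omega⟩
    have h1 := h (c ++ (rep N (U ++ c) ++ (κ ++ (rep N (c ++ (V ++ δ)) ++ c)))) (by
      simp only [F.mul, F.φ_rep]
      rw [hκ, ← hedef, ← hζ, hue]
      have e1 : e * (F.φ V * ζ) = e * ζ := by rw [← mul_assoc, hev]
      rw [e1, hpow2]
      rw [← mul_assoc e (e ^ N), hepow N]
      have e2 : e * (ζ * (e * (e * ζ * e) ^ N)) = (e * ζ * e) ^ (N + 1) := by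
        rw [pow_succ']; simp only [mul_assoc]
      rw [e2, ← hNN, Nat.mul_comm n N1, pow_mul, hN]
      obtain ⟨n, rfl⟩ : ∃ n', n = n' + 1 := ⟨n - 1, by omega⟩
      rw [pow_succ', hepow])
    rw [rep_rep', rep_rep', hNN, rep_succ N (U ++ c), rep_succ' N (c ++ (V ++ δ))]
    simpa [List.append_assoc] using h1
  have := hP.all P _ κ _ Z key 0 0
  simpa using this

end FM

namespace TT

variable {Q : Type} (S : TT α Q)

/-- The finite monoid of stationary readings. -/
theorem exists_FM0 [Finite Q] : ∃ F : FM α, ∀ x y, F.φ x = F.φ y →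
    (∀ q q', S.T q x [] q' → S.T q y [] q') ∧ (∀ q q', S.T q [] x q' → S.T q [] y q') := by
  let r : List α → List α → Prop := fun x y =>
    (∀ q q', S.T q x [] q' ↔ S.T q y [] q') ∧ (∀ q q', S.T q [] x q' ↔ S.T q [] y q')
  have hL : ∀ x y q q', S.T q (x ++ y) [] q' ↔ ∃ m, S.T q x [] m ∧ S.T m y [] q' := by
    intro x y q q'
    constructor
    · intro h
      obtain ⟨b, v1, v2, e, h1, h2⟩ := S.splitL h
      obtain ⟨rfl, rfl⟩ := List.append_eq_nil_iff.mp e.symm
      exact ⟨b, h1, h2⟩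
    · rintro ⟨m, h1, h2⟩
      exact S.comp h1 h2
  have hR : ∀ x y q q', S.T q [] (x ++ y) q' ↔ ∃ m, S.T q [] y m ∧ S.T m [] x q' := by
    intro x y q q'
    constructor
    · intro h
      obtain ⟨b, v1, v2, e, h1, h2⟩ := S.splitR h
      obtain ⟨rfl, rfl⟩ := List.append_eq_nil_iff.mp e.symm
      exact ⟨b, h1, h2⟩
    · rintro ⟨m, h1, h2⟩
      exact S.comp h1 h2
  obtain ⟨F, hF⟩ := exists_FM r (fun x => ⟨fun _ _ => Iff.rfl, fun _ _ => Iff.rfl⟩)
    (fun h => ⟨fun q q' => (h.1 q q').symm, fun q q' => (h.2 q q').symm⟩)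
    (fun h1 h2 => ⟨fun q q' => (h1.1 q q').trans (h2.1 q q'),
      fun q q' => (h1.2 q q').trans (h2.2 q q')⟩)
    (by
      intro w x y z h1 h2
      refine ⟨fun q q' => ?_, fun q q' => ?_⟩
      · rw [hL, hL]
        exact exists_congr fun m => and_congr (h1.1 q m) (h2.1 m q')
      · rw [hR, hR]
        exact exists_congr fun m => and_congr (h2.2 q m) (h1.2 m q'))
    (X := Set (Q × Q) × Set (Q × Q))
    (fun x => ({p | S.T p.1 x [] p.2}, {p | S.T p.1 [] x p.2}))
    (by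
      intro x y h
      simp only [Prod.mk.injEq] at h
      refine ⟨fun q q' => ?_, fun q q' => ?_⟩
      · exact Set.ext_iff.mp h.1 (q, q')
      · exact Set.ext_iff.mp h.2 (q, q'))
  exact ⟨F, fun x y h => ⟨fun q q' => ((hF x y h).1 q q').mp, fun q q' => ((hF x y h).2 q q').mp⟩⟩

/-- Reading `x` with the left head while the right head moves in `s^∞`. -/
def ckR (s : List α) (M : ℕ) (q : Q) (i : ℕ) (x : List α) (q' : Q) (j : ℕ) : Prop :=
  ∃ π, S.T q x π q' ∧ Per s.reverse i π.reverse ∧ i + π.length ≡ j [MOD M]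

/-- Reading `x` with the right head while the left head moves in `s^∞`. -/
def ckL (s : List α) (M : ℕ) (q : Q) (i : ℕ) (x : List α) (q' : Q) (j : ℕ) : Prop :=
  ∃ π, S.T q π x q' ∧ Per s i π ∧ i + π.length ≡ j [MOD M]

variable {S}

theorem ckR_congr {s : List α} {M : ℕ} (hM : s.length ∣ M) {q : Q} {i i' : ℕ} {x : List α}
    {q' : Q} {j j' : ℕ} (hi : i ≡ i' [MOD M]) (hj : j ≡ j' [MOD M])
    (h : S.ckR s M q i x q' j) : S.ckR s M q i' x q' j' := by
  obtain ⟨π, h1, h2, h3⟩ := h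
  refine ⟨π, h1, Per.congr ?_ h2, ?_⟩
  · rw [List.length_reverse]
    exact hi.of_dvd hM
  · exact ((hi.symm.add_right _).trans h3).trans hj

theorem ckL_congr {s : List α} {M : ℕ} (hM : s.length ∣ M) {q : Q} {i i' : ℕ} {x : List α}
    {q' : Q} {j j' : ℕ} (hi : i ≡ i' [MOD M]) (hj : j ≡ j' [MOD M])
    (h : S.ckL s M q i x q' j) : S.ckL s M q i' x q' j' := by
  obtain ⟨π, h1, h2, h3⟩ := h
  exact ⟨π, h1, Per.congr (hi.of_dvd hM) h2, ((hi.symm.add_right _).trans h3).trans hj⟩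

theorem ckR_append {s : List α} {M : ℕ} (hM : s.length ∣ M) {q : Q} {i : ℕ} {x y : List α}
    {q' : Q} {j : ℕ} : S.ckR s M q i (x ++ y) q' j ↔
      ∃ m l, S.ckR s M q i x m l ∧ S.ckR s M m l y q' j := by
  constructor
  · rintro ⟨π, h1, h2, h3⟩
    obtain ⟨b, v1, v2, rfl, t1, t2⟩ := S.splitL h1
    rw [List.reverse_append, Per.append] at h2
    refine ⟨b, i + v1.length, ⟨v1, t1, h2.1, Nat.ModEq.refl _⟩, ⟨v2, t2, by simpa using h2.2, ?_⟩⟩
    have : i + v1.length + v2.length = i + (v2 ++ v1).length := by simp; omega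
    rw [this]
    exact h3
  · rintro ⟨m, l, ⟨π1, t1, p1, e1⟩, h⟩
    obtain ⟨π2, t2, p2, e2⟩ := ckR_congr hM e1.symm (Nat.ModEq.refl _) h
    refine ⟨π2 ++ π1, S.comp t1 t2, ?_, ?_⟩
    · rw [List.reverse_append, Per.append]
      exact ⟨p1, by simpa using p2⟩
    · have : i + (π2 ++ π1).length = i + π1.length + π2.length := by simp; omega
      rw [this]
      exact e2

theorem ckL_append {s : List α} {M : ℕ} (hM : s.length ∣ M) {q : Q} {i : ℕ} {x y : List α}
    {q' : Q} {j : ℕ} : S.ckL s M q i (x ++ y) q' j ↔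
      ∃ m l, S.ckL s M q i y m l ∧ S.ckL s M m l x q' j := by
  constructor
  · rintro ⟨π, h1, h2, h3⟩
    obtain ⟨b, v1, v2, rfl, t1, t2⟩ := S.splitR h1
    rw [Per.append] at h2
    refine ⟨b, i + v1.length, ⟨v1, t1, h2.1, Nat.ModEq.refl _⟩, ⟨v2, t2, h2.2, ?_⟩⟩
    have : i + v1.length + v2.length = i + (v1 ++ v2).length := by simp; omega
    rw [this]
    exact h3
  · rintro ⟨m, l, ⟨π1, t1, p1, e1⟩, h⟩
    obtain ⟨π2, t2, p2, e2⟩ := ckL_congr hM e1.symm (Nat.ModEq.refl _) h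
    refine ⟨π1 ++ π2, S.comp t1 t2, ?_, ?_⟩
    · rw [Per.append]
      exact ⟨p1, p2⟩
    · have : i + (π1 ++ π2).length = i + π1.length + π2.length := by simp; omega
      rw [this]
      exact e2

/-- The finite clock monoid. -/
theorem exists_FM1 [Finite Q] {s : List α} {M : ℕ} (hM : s.length ∣ M) (hM0 : 0 < M) :
    ∃ F : FM α, ∀ x y, F.φ x = F.φ y →
      (∀ q i q' j, S.ckR s M q i x q' j → S.ckR s M q i y q' j) ∧
      (∀ q i q' j, S.ckL s M q i x q' j → S.ckL s M q i y q' j) := by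
  haveI : NeZero M := ⟨by omega⟩
  let r : List α → List α → Prop := fun x y =>
    (∀ q i q' j, S.ckR s M q i x q' j ↔ S.ckR s M q i y q' j) ∧
      (∀ q i q' j, S.ckL s M q i x q' j ↔ S.ckL s M q i y q' j)
  obtain ⟨F, hF⟩ := exists_FM r (fun x => ⟨fun _ _ _ _ => Iff.rfl, fun _ _ _ _ => Iff.rfl⟩)
    (fun h => ⟨fun q i q' j => (h.1 q i q' j).symm, fun q i q' j => (h.2 q i q' j).symm⟩)
    (fun h1 h2 => ⟨fun q i q' j => (h1.1 q i q' j).trans (h2.1 q i q' j),
      fun q i q' j => (h1.2 q i q' j).trans (h2.2 q i q' j)⟩)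
    (by
      intro w x y z h1 h2
      refine ⟨fun q i q' j => ?_, fun q i q' j => ?_⟩
      · rw [ckR_append hM, ckR_append hM]
        exact exists_congr fun m => exists_congr fun l =>
          and_congr (h1.1 q i m l) (h2.1 m l q' j)
      · rw [ckL_append hM, ckL_append hM]
        exact exists_congr fun m => exists_congr fun l =>
          and_congr (h2.2 q i m l) (h1.2 m l q' j))
    (X := Set (Q × Fin M × Q × Fin M) × Set (Q × Fin M × Q × Fin M))
    (fun x => ({p | S.ckR s M p.1 p.2.1 x p.2.2.1 p.2.2.2},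
      {p | S.ckL s M p.1 p.2.1 x p.2.2.1 p.2.2.2}))
    (by
      intro x y h
      simp only [Prod.mk.injEq] at h
      have hmod : ∀ i : ℕ, i ≡ ((⟨i % M, Nat.mod_lt _ hM0⟩ : Fin M) : ℕ) [MOD M] :=
        fun i => (Nat.mod_modEq i M).symm
      refine ⟨fun q i q' j => ?_, fun q i q' j => ?_⟩
      · have h1 := Set.ext_iff.mp h.1
          (q, ⟨i % M, Nat.mod_lt _ hM0⟩, q', ⟨j % M, Nat.mod_lt _ hM0⟩)
        constructor
        · intro hx
          exact ckR_congr hM (hmod i).symm (hmod j).symm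
            (h1.mp (ckR_congr hM (hmod i) (hmod j) hx))
        · intro hx
          exact ckR_congr hM (hmod i).symm (hmod j).symm
            (h1.mpr (ckR_congr hM (hmod i) (hmod j) hx))
      · have h1 := Set.ext_iff.mp h.2
          (q, ⟨i % M, Nat.mod_lt _ hM0⟩, q', ⟨j % M, Nat.mod_lt _ hM0⟩)
        constructor
        · intro hx
          exact ckL_congr hM (hmod i).symm (hmod j).symm
            (h1.mp (ckL_congr hM (hmod i) (hmod j) hx))
        · intro hx
          exact ckL_congr hM (hmod i).symm (hmod j).symm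
            (h1.mpr (ckL_congr hM (hmod i) (hmod j) hx)))
  exact ⟨F, fun x y h => ⟨fun q i q' j => ((hF x y h).1 q i q' j).mp,
    fun q i q' j => ((hF x y h).2 q i q' j).mp⟩⟩

end TT

end Pool.Agent.TH297.PK
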