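import Mathlib
import Pool.Agent.TH297.PK.E
set_option autoImplicit false

namespace Pool.Agent.TH297.PK

open Pool.Agent.Results.MP_5ca50a_lc.SmallExponents

variable {α : Type}

theorem pre_split {A B C D : List α} (h : A ++ B = C ++ D) (hl : A.length ≤ C.length) :
    ∃ E, C = A ++ E ∧ B = E ++ D := by
  rcases List.append_eq_append_iff.mp h with ⟨a, h1, h2⟩ | ⟨c, h1, h2⟩
  · exact ⟨a, h1, h2⟩
  · have : c = [] := by
      have := congrArg List.length h1
      simp only [List.length_append] at this
      exact List.length_eq_zero_iff.mp (by omega)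
    subst this
    exact ⟨[], by simpa using h1.symm, by simpa using h2.symm⟩

theorem split_len (l : List α) (n : ℕ) (h : n ≤ l.length) :
    ∃ a b, l = a ++ b ∧ b.length = n := by
  refine ⟨l.take (l.length - n), l.drop (l.length - n), (List.take_append_drop _ _).symm, ?_⟩
  rw [List.length_drop]
  omega

/-- Concatenation of the units `s^n τ`. -/
def flat (s τ : List α) : List ℕ → List α
  | [] => []
  | n :: us => rep n s ++ (τ ++ flat s τ us)

theorem flat_append (s τ : List α) (us vs : List ℕ) :
    flat s τ (us ++ vs) = flat s τ us ++ flat s τ vs := by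
  induction us with
  | nil => rfl
  | cons n us ih => simp [flat, ih]

/-- The factor `ν` (after `y`, before `z`) lies in one of the blocks. -/
def InB (s τ W : List α) (us : List ℕ) (y ν z : List α) : Prop :=
  ∃ us1 n us2 π' π'', us = us1 ++ n :: us2 ∧ y = flat s τ us1 ++ π' ∧ π' ++ (ν ++ π'') = rep n s ∧
    z = π'' ++ (τ ++ (flat s τ us2 ++ W))

theorem lemA {s τ W ν3 ν2 ν1 z : List α} {b0 : ℕ} : ∀ (us : List ℕ) (y : List α),
    (∀ n ∈ us, b0 ≤ n * s.length) → flat s τ us ++ W = y ++ (ν3 ++ (ν2 ++ (ν1 ++ z))) →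
    ν3.length + ν2.length + ν1.length ≤ b0 → τ.length + W.length < ν2.length →
    InB s τ W us y ν3 (ν2 ++ (ν1 ++ z)) ∨ InB s τ W us (y ++ (ν3 ++ ν2)) ν1 z := by
  intro us
  induction us with
  | nil =>
    intro y _ he _ hl
    exfalso
    have := congrArg List.length he
    simp only [flat, List.nil_append, List.length_append] at this
    omega
  | cons n us ih =>
    intro y hb he htot hl
    have he' : (rep n s ++ τ) ++ (flat s τ us ++ W) = y ++ (ν3 ++ (ν2 ++ (ν1 ++ z))) := by
      rw [← he]; simp [flat]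
    have hA : (rep n s).length = n * s.length := length_rep n s
    by_cases h1 : (rep n s ++ τ).length ≤ y.length
    · obtain ⟨y', rfl, e2⟩ := pre_split he' h1
      rcases ih y' (fun m hm => hb m (List.mem_cons_of_mem _ hm)) e2 htot hl with
        ⟨us1, m, us2, π', π'', rfl, rfl, e3, e4⟩ | ⟨us1, m, us2, π', π'', rfl, e5, e3, e4⟩
      · exact Or.inl ⟨n :: us1, m, us2, π', π'', rfl, by simp [flat], e3, e4⟩
      · refine Or.inr ⟨n :: us1, m, us2, π', π'', rfl, ?_, e3, e4⟩
        rw [List.append_assoc, e5]; simp [flat]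
    · by_cases h2 : (y ++ ν3).length ≤ (rep n s).length
      · have he2 : (y ++ ν3) ++ (ν2 ++ (ν1 ++ z)) = rep n s ++ (τ ++ (flat s τ us ++ W)) := by
          rw [List.append_assoc, ← he]; simp [flat]
        obtain ⟨E, e1, e2⟩ := pre_split he2 h2
        exact Or.inl ⟨[], n, us, y, E, rfl, rfl, by rw [e1]; simp, e2⟩
      · right
        have he3 : (rep n s ++ τ) ++ (flat s τ us ++ W) = (y ++ (ν3 ++ ν2)) ++ (ν1 ++ z) := by
          rw [he']; simp
        simp only [List.length_append] at h1 h2
        obtain ⟨y3, e1, e2⟩ := pre_split he3 (by simp only [List.length_append]; omega)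
        have hl3 := congrArg List.length e1
        simp only [List.length_append] at hl3
        rcases us with _ | ⟨n2, us⟩
        · exfalso
          have := congrArg List.length e2
          simp only [flat, List.nil_append, List.length_append] at this
          omega
        · have hb2 := hb n2 (by simp)
          have he4 : (y3 ++ ν1) ++ z = rep n2 s ++ (τ ++ (flat s τ us ++ W)) := by
            rw [List.append_assoc, ← e2]; simp [flat]
          obtain ⟨E, e3, e4⟩ := pre_split he4 (by
            rw [length_rep, List.length_append]; omega)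
          refine ⟨[n], n2, us, y3, E, rfl, ?_, by rw [e3]; simp, e4⟩
          rw [e1]; simp [flat]

/-- A long factor of a block contains a long aligned power of `s`. -/
theorem aligned {s : List α} (hs : s ≠ []) {m N : ℕ} {π' ν π'' : List α}
    (h : π' ++ (ν ++ π'') = rep N s) (hl : ν.length = (m + 1) * s.length) :
    ∃ a b ν' ν'', a + m + b = N ∧ ν = ν' ++ (rep m s ++ ν'') ∧ π' ++ ν' = rep a s ∧
      ν'' ++ π'' = rep b s := by
  have hs0 : 0 < s.length := List.length_pos_iff.mpr hs
  have htot := congrArg List.length h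
  simp only [List.length_append, length_rep] at htot
  -- `a` is the least with `|π'| ≤ a |s|`
  set a := (π'.length + s.length - 1) / s.length with ha
  have h1 : π'.length ≤ a * s.length := by
    have := Nat.div_add_mod (π'.length + s.length - 1) s.length
    have h2 := Nat.mod_lt (π'.length + s.length - 1) hs0
    rw [← ha] at this
    rw [Nat.mul_comm]
    omega
  have h2 : a * s.length < π'.length + s.length := by
    have := Nat.div_mul_le_self (π'.length + s.length - 1) s.length
    rw [← ha] at this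
    omega
  have h3 : (a + m) * s.length ≤ N * s.length := by
    rw [Nat.add_mul]
    rw [hl, Nat.add_mul] at htot
    omega
  have h4 : a + m ≤ N := Nat.le_of_mul_le_mul_right h3 hs0
  obtain ⟨b, rfl⟩ : ∃ b, N = a + m + b := ⟨N - (a+m), by omega⟩
  rw [rep_add, rep_add, List.append_assoc] at h
  obtain ⟨ν', e1, e2⟩ := pre_split h (by rw [length_rep]; exact h1)
  have h5 := congrArg List.length e1
  simp only [List.length_append, length_rep] at h5
  have e3 : (ν' ++ rep m s) ++ rep b s = ν ++ π'' := by
    rw [e2]; simp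
  obtain ⟨ν'', e4, e5⟩ := pre_split e3 (by
    simp only [List.length_append, length_rep]
    rw [hl, Nat.add_mul]
    omega)
  exact ⟨a, b, ν', ν'', rfl, by rw [e4]; simp, e1.symm, e5.symm⟩

namespace TT

variable {Q : Type} {S : TT α Q}

/-- Reading inside a block can be imitated. -/
theorem clockR {F1 : FM α} {s : List α} (hs : s ≠ []) {m0 : ℕ}
    (hF : ∀ x y, F1.φ x = F1.φ y →
      (∀ q i q' j, S.ckR s (m0 * s.length) q i x q' j → S.ckR s (m0 * s.length) q i y q' j))
    {m : ℕ} (hm : m0 ∣ m) {π' ν π'' x κ : List α} {a b : Q} (hπ : π' ++ (ν ++ π'') = rep m s)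
    (hT : S.T a x ν b) (hκ : F1.φ x = F1.φ κ) :
    ∃ ν' m', S.T a κ ν' b ∧ π' ++ (ν' ++ π'') = rep m' s ∧ m0 ∣ m' := by
  have hs0 : 0 < s.length := List.length_pos_iff.mpr hs
  have hper : Per s.reverse 0 ((π''.reverse ++ ν.reverse) ++ π'.reverse) := by
    have := per_rep s.reverse m
    rw [← rep_reverse, ← hπ] at this
    simpa using this
  rw [Per.append, Per.append] at hper
  obtain ⟨⟨p1, p2⟩, p3⟩ := hper
  rw [Nat.zero_add] at p2
  simp only [List.length_reverse, List.length_append, Nat.zero_add] at p2 p3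
  obtain ⟨ν', t, q2, hmod⟩ := hF _ _ hκ a π''.length b (π''.length + ν.length)
    ⟨ν, hT, p2, Nat.ModEq.refl _⟩
  have hdvd : s.length ∣ m0 * s.length := Dvd.intro_left _ rfl
  have p3' : Per s.reverse (π''.length + ν'.length) π'.reverse := by
    refine Per.congr ?_ p3
    rw [List.length_reverse]
    exact (hmod.of_dvd hdvd).symm
  have hper' : Per s.reverse 0 ((π''.reverse ++ ν'.reverse) ++ π'.reverse) := by
    rw [Per.append, Per.append]
    refine ⟨⟨p1, ?_⟩, ?_⟩
    · simpa using q2
    · simpa using p3'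
  have hlen : π'.length + (ν.length + π''.length) = m * s.length := by
    have := congrArg List.length hπ
    simpa only [List.length_append, length_rep] using this
  have hmod2 : π'.length + (ν'.length + π''.length) ≡ 0 [MOD m0 * s.length] := by
    have h1 : π'.length + (ν'.length + π''.length) ≡ π'.length + (ν.length + π''.length)
        [MOD m0 * s.length] := by
      have := hmod.add_left π'.length
      have e1 : π'.length + (ν'.length + π''.length) = π'.length + (π''.length + ν'.length) := by
        omega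
      have e2 : π'.length + (ν.length + π''.length) = π'.length + (π''.length + ν.length) := by
        omega
      rw [e1, e2]
      exact this
    refine h1.trans ?_
    rw [hlen]
    exact (Nat.modEq_zero_iff_dvd).mpr (Nat.mul_dvd_mul_right hm _)
  obtain ⟨c, hc⟩ := (Nat.modEq_zero_iff_dvd).mp hmod2
  refine ⟨ν', m0 * c, t, ?_, Dvd.intro _ rfl⟩
  have h2 := hper'.eq_rep (n := m0 * c) (by
    simp only [List.length_append, List.length_reverse]
    rw [show m0 * c * s.length = m0 * s.length * c by ring, ← hc]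
    omega)
  have h3 := congrArg List.reverse h2
  rw [rep_reverse, List.reverse_reverse] at h3
  simpa using h3

variable {L : List α → Prop} {F0 F1 : FM α} {s τ : List α}

/-- First kind of outcome: a copy of `s` is read in a stationary way. -/
def NSv (L : List α → Prop) (F0 : FM α) (s P W : List α) : Prop :=
  ∃ U V, (F0.φ U = 1 ∨ F0.φ U = F0.φ s) ∧ (F0.φ V = 1 ∨ F0.φ V = F0.φ s) ∧
    ∀ κ, F0.φ κ = F0.φ s → L (P ++ (U ++ (κ ++ (V ++ W))))

/-- Second kind of outcome: a copy of `τ` is read against the clock. -/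
def CLv (L : List α → Prop) (F1 : FM α) (τ P W : List α) : Prop :=
  ∃ j l, ∀ κ, F1.φ κ = F1.φ τ → L (P ++ (rep j τ ++ (κ ++ (rep l τ ++ W))))

theorem or_mul {F : FM α} {e : F.M} (he : e * e = e) {x y : List α}
    (hx : F.φ x = 1 ∨ F.φ x = e) (hy : F.φ y = 1 ∨ F.φ y = e) :
    F.φ (x ++ y) = 1 ∨ F.φ (x ++ y) = e := by
  rw [F.mul]
  rcases hx with h | h <;> rcases hy with h' | h' <;> rw [h, h'] <;> simp [he]

theorem or_rep {F : FM α} {e : F.M} (he : e * e = e) {x : List α}
    (hx : F.φ x = 1 ∨ F.φ x = e) (n : ℕ) : F.φ (rep n x) = 1 ∨ F.φ (rep n x) = e := by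
  induction n with
  | zero => left; exact F.one
  | succ n ih => rw [rep_succ]; exact or_mul he hx ih

theorem or_flat {F : FM α} {e : F.M} (he : e * e = e) {s τ : List α}
    (hs : F.φ s = 1 ∨ F.φ s = e) (hτ : F.φ τ = 1 ∨ F.φ τ = e) (us : List ℕ) :
    F.φ (flat s τ us) = 1 ∨ F.φ (flat s τ us) = e := by
  induction us with
  | nil => left; exact F.one
  | cons n us ih => exact or_mul he (or_rep he hs n) (or_mul he hτ ih)

theorem norm {m0 : ℕ} (hdel : ∀ j P W, L (P ++ (rep (m0 * j) s ++ W)) → L (P ++ W)) :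
    ∀ (us : List ℕ), (∀ n ∈ us, m0 ∣ n) → ∀ A C, L (A ++ (flat s τ us ++ C)) →
      L (A ++ (rep us.length τ ++ C)) := by
  intro us
  induction us with
  | nil => intro _ A C h; simpa [flat] using h
  | cons n us ih =>
    intro hd A C h
    obtain ⟨j, hj⟩ := hd n (by simp)
    have h1 : L (A ++ (rep (m0 * j) s ++ (τ ++ (flat s τ us ++ C)))) := by
      rw [← hj]
      simpa [flat] using h
    have h2 := hdel j _ _ h1
    have h3 := ih (fun m hm => hd m (List.mem_cons_of_mem _ hm)) (A ++ τ) C (by
      simpa [List.append_assoc] using h2)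
    rw [List.length_cons, rep_succ]
    simpa [List.append_assoc] using h3

/-- A long reading inside a block against a short word is stationary somewhere. -/
theorem nsHole (hs : s ≠ []) (he : F0.φ s * F0.φ s = F0.φ s)
    (hF0 : ∀ x y, F0.φ x = F0.φ y → ∀ q q', S.T q [] x q' → S.T q [] y q')
    (hτ : F0.φ τ = F0.φ s) {P W U0 c ν y z : List α} {us : List ℕ} {m : ℕ} {r r' : Q}
    (hU0 : F0.φ U0 = 1 ∨ F0.φ U0 = F0.φ s)
    (hT : S.T r c ν r') (hc : c.length < m) (hν : ν.length = (m + 1) * s.length)
    (hin : InB s τ W us y ν z)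
    (hole : ∀ ν', S.T r c ν' r' → L (P ++ (U0 ++ (y ++ (ν' ++ z))))) : NSv L F0 s P W := by
  obtain ⟨us1, n, us2, π', π'', -, rfl, h1, rfl⟩ := hin
  obtain ⟨a, b, ν', ν'', hab, rfl, h2, h3⟩ := aligned hs h1 hν
  rw [← List.append_assoc] at hT
  obtain ⟨x1, u1, u2, rfl, t1, t2⟩ := S.splitR hT
  obtain ⟨x2, u3, u4, rfl, t3, t4⟩ := S.splitR t2
  obtain ⟨i, j, u5, u6, w, w', hij, rfl, t5, t6, t7⟩ := statR t3 (by
    simp only [List.length_append] at hc
    omega)
  have hs1 : F0.φ s = 1 ∨ F0.φ s = F0.φ s := Or.inr rfl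
  have hτ1 : F0.φ τ = 1 ∨ F0.φ τ = F0.φ s := Or.inr hτ
  refine ⟨U0 ++ (flat s τ us1 ++ rep (a + j) s), rep (i + b) s ++ (τ ++ flat s τ us2),
    or_mul he hU0 (or_mul he (or_flat he hs1 hτ1 _) (or_rep he hs1 _)),
    or_mul he (or_rep he hs1 _) (or_mul he hτ1 (or_flat he hs1 hτ1 _)), ?_⟩
  intro κ hκ
  have t6' := hF0 s κ hκ.symm _ _ t6
  have := hole _ (S.comp t1 (S.comp (S.comp t5 (S.comp t6' t7)) t4))
  rw [rep_add, rep_add, ← h2, ← h3]
  simpa [List.append_assoc] using this

end TT

end Pool.Agent.TH297.PK
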