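import Mathlib
import Pool.Agent.TH297.PK.F
set_option autoImplicit false

namespace Pool.Agent.TH297.PK

open Pool.Agent.Results.MP_5ca50a_lc.SmallExponents

variable {α : Type}

/-- Two consecutive units. -/
def chunk (s τ : List α) (p : ℕ × ℕ) : List α := rep p.1 s ++ (τ ++ (rep p.2 s ++ τ))

/-- The list of exponents. -/
def unp : List (ℕ × ℕ) → List ℕ
  | [] => []
  | p :: ps => p.1 :: p.2 :: unp ps

theorem unp_append (ps qs : List (ℕ × ℕ)) : unp (ps ++ qs) = unp ps ++ unp qs := by
  induction ps with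
  | nil => rfl
  | cons p ps ih => simp [unp, ih]

theorem flatten_chunk (s τ : List α) (ps : List (ℕ × ℕ)) :
    (ps.map (chunk s τ)).flatten = flat s τ (unp ps) := by
  induction ps with
  | nil => rfl
  | cons p ps ih => simp [unp, flat, chunk, ih]

theorem mem_unp {ps : List (ℕ × ℕ)} {n : ℕ} (h : n ∈ unp ps) : ∃ p ∈ ps, n = p.1 ∨ n = p.2 := by
  induction ps with
  | nil => simp [unp] at h
  | cons p ps ih =>
    simp only [unp, List.mem_cons] at h
    rcases h with h | h | h
    · exact ⟨p, by simp, Or.inl h⟩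
    · exact ⟨p, by simp, Or.inr h⟩
    · obtain ⟨q, hq, h'⟩ := ih h
      exact ⟨q, List.mem_cons_of_mem _ hq, h'⟩

/-- The bound for later exponents. -/
def bnd (s τ : List α) (w : ℕ) (p : ℕ × ℕ) : ℕ :=
  2 * (((chunk s τ p).length + 2) * s.length) + w + 1

/-- The growth condition. -/
def Good (s τ : List α) (w : ℕ) : ℕ → List (ℕ × ℕ) → Prop
  | _, [] => True
  | ℓ, p :: ps => ℓ < p.2 ∧ w < p.2 ∧ (∀ q ∈ ps, bnd s τ w p ≤ q.1 ∧ bnd s τ w p ≤ q.2) ∧
      Good s τ w (ℓ + (chunk s τ p).length) ps

theorem exists_good (s τ : List α) (w m0 : ℕ) (hm0 : 0 < m0) : ∀ (B N ℓ : ℕ),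
    ∃ ps : List (ℕ × ℕ), ps.length = B ∧
      (∀ p ∈ ps, m0 ∣ p.1 ∧ m0 ∣ p.2 ∧ N ≤ p.1 ∧ N ≤ p.2) ∧ Good s τ w ℓ ps := by
  intro B
  induction B with
  | zero => intro N ℓ; exact ⟨[], rfl, by simp, trivial⟩
  | succ B ih =>
    intro N ℓ
    set n := m0 * (N + ℓ + w + 1) with hn
    have hle : N + ℓ + w + 1 ≤ n := Nat.le_mul_of_pos_left _ hm0
    obtain ⟨ps, h1, h2, h3⟩ := ih (max N (bnd s τ w (n, n))) (ℓ + (chunk s τ (n, n)).length)
    refine ⟨(n, n) :: ps, by simp [h1], ?_, ?_, ?_, ?_, h3⟩
    · intro p hp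
      rcases List.mem_cons.mp hp with rfl | hp
      · exact ⟨Dvd.intro _ rfl, Dvd.intro _ rfl, by simp only; omega, by simp only; omega⟩
      · obtain ⟨a, b, c, d⟩ := h2 p hp
        exact ⟨a, b, (le_max_left _ _).trans c, (le_max_left _ _).trans d⟩
    · simp only; omega
    · simp only; omega
    · intro q hq
      obtain ⟨a, b, c, d⟩ := h2 q hq
      exact ⟨(le_max_right _ _).trans c, (le_max_right _ _).trans d⟩

theorem good_split (s τ : List α) (w : ℕ) : ∀ (ps1 : List (ℕ × ℕ)) (ℓ : ℕ) (qs : List (ℕ × ℕ)),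
    Good s τ w ℓ (ps1 ++ qs) → Good s τ w (ℓ + (flat s τ (unp ps1)).length) qs
  | [], ℓ, qs, h => by simpa [unp, flat] using h
  | p :: ps1, ℓ, qs, h => by
    have := good_split s τ w ps1 _ qs h.2.2.2
    have e : ℓ + (flat s τ (unp (p :: ps1))).length =
        ℓ + (chunk s τ p).length + (flat s τ (unp ps1)).length := by
      simp only [unp, flat, chunk, List.length_append]
      omega
    rw [e]
    exact this

namespace TT

variable {Q : Type} {S : TT α Q} {L : List α → Prop} {F0 F1 : FM α} {s τ : List α}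

/-- The right head reads a chunk: some `s` is read in a stationary way. -/
theorem rightCase (hs : s ≠ []) (he : F0.φ s * F0.φ s = F0.φ s)
    (hF0 : ∀ x y, F0.φ x = F0.φ y → ∀ q q', S.T q [] x q' → S.T q [] y q')
    (hτ : F0.φ τ = F0.φ s) {P W x u y : List α} {us0 us : List ℕ} {p : ℕ × ℕ} {q q' : Q}
    (hX : P ++ flat s τ us0 = x ++ (u ++ y)) (hT : S.T q u (chunk s τ p) q')
    (hR : ∀ u' v', S.T q u' v' q' → L (x ++ (u' ++ (y ++ (v' ++ (flat s τ us ++ W))))))
    (hsize : (P ++ flat s τ us0).length < p.2) : NSv L F0 s P W := by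
  have hT' : S.T q u (((rep p.1 s ++ τ) ++ rep p.2 s) ++ τ) q' := by
    simpa [chunk, List.append_assoc] using hT
  obtain ⟨q1, u0, u1, rfl, t0, t1⟩ := S.splitR hT'
  obtain ⟨q2, u2, u3, rfl, t2, t3⟩ := S.splitR t1
  have hlen : u2.length < p.2 := by
    rw [hX] at hsize
    simp only [List.length_append] at hsize
    omega
  obtain ⟨i, j, ua, ub, r, r', hij, rfl, t4, t5, t6⟩ := statR t2 hlen
  have hs1 : F0.φ s = 1 ∨ F0.φ s = F0.φ s := Or.inr rfl
  have hτ1 : F0.φ τ = 1 ∨ F0.φ τ = F0.φ s := Or.inr hτ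
  refine ⟨flat s τ us0 ++ (rep p.1 s ++ (τ ++ rep j s)), rep i s ++ (τ ++ flat s τ us),
    or_mul he (or_flat he hs1 hτ1 _) (or_mul he (or_rep he hs1 _) (or_mul he hτ1
      (or_rep he hs1 _))),
    or_mul he (or_rep he hs1 _) (or_mul he hτ1 (or_flat he hs1 hτ1 _)), ?_⟩
  intro κ hκ
  have t5' := hF0 s κ hκ.symm _ _ t5
  have := hR _ _ (S.comp t0 (S.comp (S.comp t4 (S.comp t5' t6)) t3))
  have e : P ++ ((flat s τ us0 ++ (rep p.1 s ++ (τ ++ rep j s))) ++
      (κ ++ ((rep i s ++ (τ ++ flat s τ us)) ++ W))) =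
      (P ++ flat s τ us0) ++ ((rep p.1 s ++ (τ ++ rep j s)) ++
      (κ ++ ((rep i s ++ (τ ++ flat s τ us)) ++ W))) := by simp
  rw [e, hX]
  simpa [List.append_assoc] using this

/-- The left head reads a chunk. -/
theorem leftCase (hs : s ≠ []) (he : F0.φ s * F0.φ s = F0.φ s)
    (hF0L : ∀ x y, F0.φ x = F0.φ y → ∀ q q', S.T q x [] q' → S.T q y [] q')
    (hF0 : ∀ x y, F0.φ x = F0.φ y → ∀ q q', S.T q [] x q' → S.T q [] y q')
    {m0 : ℕ} (hF1 : ∀ x y, F1.φ x = F1.φ y →
      (∀ q i q' j, S.ckR s (m0 * s.length) q i x q' j → S.ckR s (m0 * s.length) q i y q' j))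
    (hdel : ∀ j P W, L (P ++ (rep (m0 * j) s ++ W)) → L (P ++ W))
    (hτ : F0.φ τ = F0.φ s) {P W y v z : List α} {us0 us : List ℕ} {p : ℕ × ℕ} {q q' : Q}
    (hd0 : ∀ n ∈ us0, m0 ∣ n) (hdp1 : m0 ∣ p.1) (hdp2 : m0 ∣ p.2) (hd : ∀ n ∈ us, m0 ∣ n)
    (hY : flat s τ us ++ W = y ++ (v ++ z)) (hT : S.T q (chunk s τ p) v q')
    (hR : ∀ u' v', S.T q u' v' q' → L ((P ++ flat s τ us0) ++ (u' ++ (y ++ (v' ++ z)))))
    (hsize : τ.length + W.length < p.2)
    (hbig : ∀ n ∈ us, bnd s τ (τ.length + W.length) p ≤ n) :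
    NSv L F0 s P W ∨ CLv L F1 τ P W := by
  have hs0 : 0 < s.length := List.length_pos_iff.mpr hs
  have hs1 : F0.φ s = 1 ∨ F0.φ s = F0.φ s := Or.inr rfl
  have hτ1 : F0.φ τ = 1 ∨ F0.φ τ = F0.φ s := Or.inr hτ
  obtain ⟨q1, ν0, v1, rfl, t0, t1'⟩ := S.splitL (u1 := rep p.1 s) hT
  obtain ⟨q2, ν1, v2, rfl, t1, t2'⟩ := S.splitL t1'
  obtain ⟨q3, ν2, ν3, rfl, t2, t3⟩ := S.splitL t2'
  by_cases h2 : ν2.length < p.2
  · -- stationary `s`
    left
    obtain ⟨i, j, v1, v2, r, r', hij, rfl, t4, t5, t6⟩ := statL t2 h2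
    refine ⟨flat s τ us0 ++ (rep p.1 s ++ (τ ++ rep i s)), rep j s ++ (τ ++ flat s τ us),
      or_mul he (or_flat he hs1 hτ1 _) (or_mul he (or_rep he hs1 _) (or_mul he hτ1
        (or_rep he hs1 _))),
      or_mul he (or_rep he hs1 _) (or_mul he hτ1 (or_flat he hs1 hτ1 _)), ?_⟩
    intro κ hκ
    have t5' := hF0L s κ hκ.symm _ _ t5
    have := hR _ _ (S.comp t0 (S.comp t1 (S.comp (S.comp t4 (S.comp t5' t6)) t3)))
    have e : P ++ ((flat s τ us0 ++ (rep p.1 s ++ (τ ++ rep i s))) ++
        (κ ++ ((rep j s ++ (τ ++ flat s τ us)) ++ W))) =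
        (P ++ flat s τ us0) ++ ((rep p.1 s ++ (τ ++ rep i s)) ++
        (κ ++ ((rep j s ++ τ) ++ (flat s τ us ++ W)))) := by simp
    rw [e, hY]
    simpa [List.append_assoc] using this
  · have hℓ : τ.length + W.length < ν2.length := by omega
    by_cases htot : ν3.length + ν2.length + ν1.length ≤ bnd s τ (τ.length + W.length) p
    · right
      have hbig' : ∀ n ∈ us, bnd s τ (τ.length + W.length) p ≤ n * s.length := fun n hn =>
        (hbig n hn).trans (Nat.le_mul_of_pos_right _ hs0)
      rcases lemA (z := ν0 ++ z) us y hbig' (by rw [hY]; simp) htot hℓ with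
        ⟨us1, m, us2, π', π'', hus, hy, h3, hz⟩ | ⟨us1, m, us2, π', π'', hus, hy, h3, hz⟩
      · refine ⟨us0.length + 1, us1.length + (1 + us2.length), ?_⟩
        intro κ hκ
        obtain ⟨ν', m', tκ, e1, hm'⟩ := clockR hs hF1 (hd m (by rw [hus]; simp)) h3 t3 hκ.symm
        have h4 := hR _ _ (S.comp t0 (S.comp t1 (S.comp t2 tκ)))
        have h5 : L ((P ++ (flat s τ (us0 ++ [p.1]) ++ (rep p.2 s ++ κ))) ++
            (flat s τ (us1 ++ m' :: us2) ++ W)) := by
          have e2 : (P ++ (flat s τ (us0 ++ [p.1]) ++ (rep p.2 s ++ κ))) ++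
              (flat s τ (us1 ++ m' :: us2) ++ W) = (P ++ flat s τ us0) ++
              ((rep p.1 s ++ (τ ++ (rep p.2 s ++ κ))) ++ (flat s τ us1 ++ (rep m' s ++
              (τ ++ (flat s τ us2 ++ W))))) := by
            simp [flat_append, flat]
          rw [e2, ← e1]
          have e3 : flat s τ us1 ++ ((π' ++ (ν' ++ π'')) ++ (τ ++ (flat s τ us2 ++ W))) =
              (flat s τ us1 ++ π') ++ (ν' ++ (π'' ++ (τ ++ (flat s τ us2 ++ W)))) := by simp
          rw [e3, ← hy, ← hz]
          simpa [List.append_assoc] using h4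
        have h6 := norm hdel (us1 ++ m' :: us2) (by
          intro n hn
          rcases List.mem_append.mp hn with hn | hn
          · exact hd n (by rw [hus]; simp [hn])
          · rcases List.mem_cons.mp hn with rfl | hn
            · exact hm'
            · exact hd n (by rw [hus]; simp [hn])) _ _ h5
        obtain ⟨j2, hj2⟩ := hdp2
        have h7 : L ((P ++ flat s τ (us0 ++ [p.1])) ++ (rep (m0 * j2) s ++ (κ ++
            (rep (us1 ++ m' :: us2).length τ ++ W)))) := by
          rw [← hj2]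
          simpa [List.append_assoc] using h6
        have h8 := hdel j2 _ _ h7
        have h9 := norm hdel (us0 ++ [p.1]) (by
          intro n hn
          rcases List.mem_append.mp hn with hn | hn
          · exact hd0 n hn
          · rw [List.mem_singleton.mp hn]; exact hdp1) P (κ ++
            (rep (us1 ++ m' :: us2).length τ ++ W)) (by
          simpa [List.append_assoc] using h8)
        have e4 : (us0 ++ [p.1]).length = us0.length + 1 := by simp
        have e5 : (us1 ++ m' :: us2).length = us1.length + (1 + us2.length) := by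
          simp; omega
        rw [e4, e5] at h9
        exact h9
      · refine ⟨us0.length, 1 + (us1.length + (1 + us2.length)), ?_⟩
        intro κ hκ
        obtain ⟨ν', m', tκ, e1, hm'⟩ := clockR hs hF1 (hd m (by rw [hus]; simp)) h3 t1 hκ.symm
        have h4 := hR _ _ (S.comp t0 (S.comp tκ (S.comp t2 t3)))
        have h5 : L ((P ++ (flat s τ us0 ++ (rep p.1 s ++ κ))) ++
            (flat s τ (p.2 :: (us1 ++ m' :: us2)) ++ W)) := by
          have e2 : (P ++ (flat s τ us0 ++ (rep p.1 s ++ κ))) ++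
              (flat s τ (p.2 :: (us1 ++ m' :: us2)) ++ W) = (P ++ flat s τ us0) ++
              ((rep p.1 s ++ (κ ++ (rep p.2 s ++ τ))) ++ (flat s τ us1 ++ (rep m' s ++
              (τ ++ (flat s τ us2 ++ W))))) := by
            simp [flat_append, flat]
          rw [e2, ← e1]
          have e3 : flat s τ us1 ++ ((π' ++ (ν' ++ π'')) ++ (τ ++ (flat s τ us2 ++ W))) =
              (flat s τ us1 ++ π') ++ (ν' ++ (π'' ++ (τ ++ (flat s τ us2 ++ W)))) := by simp
          rw [e3, ← hy, ← hz]
          simpa [List.append_assoc] using h4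
        have h6 := norm hdel (p.2 :: (us1 ++ m' :: us2)) (by
          intro n hn
          rcases List.mem_cons.mp hn with rfl | hn
          · exact hdp2
          rcases List.mem_append.mp hn with hn | hn
          · exact hd n (by rw [hus]; simp [hn])
          · rcases List.mem_cons.mp hn with rfl | hn
            · exact hm'
            · exact hd n (by rw [hus]; simp [hn])) _ _ h5
        obtain ⟨j1, hj1⟩ := hdp1
        have h7 : L ((P ++ flat s τ us0) ++ (rep (m0 * j1) s ++ (κ ++
            (rep (p.2 :: (us1 ++ m' :: us2)).length τ ++ W)))) := by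
          rw [← hj1]
          simpa [List.append_assoc] using h6
        have h8 := hdel j1 _ _ h7
        have h9 := norm hdel us0 hd0 P (κ ++ (rep (p.2 :: (us1 ++ m' :: us2)).length τ ++ W)) (by
          simpa [List.append_assoc] using h8)
        have e5 : (p.2 :: (us1 ++ m' :: us2)).length = 1 + (us1.length + (1 + us2.length)) := by
          simp; omega
        rw [e5] at h9
        exact h9
    · left
      push Not at htot
      set C := (chunk s τ p).length with hC
      have hbig' : ∀ n ∈ us, bnd s τ (τ.length + W.length) p ≤ n * s.length := fun n hn =>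
        (hbig n hn).trans (Nat.le_mul_of_pos_right _ hs0)
      have tt : S.T q1 (τ ++ (rep p.2 s ++ τ)) (ν3 ++ ν2 ++ ν1) q' := by
        have := S.comp t1 (S.comp t2 t3)
        simpa [List.append_assoc] using this
      obtain ⟨vb, va, hv, hva⟩ := split_len (ν3 ++ ν2 ++ ν1) (bnd s τ (τ.length + W.length) p)
        (by simp only [List.length_append]; omega)
      have hbd : bnd s τ (τ.length + W.length) p =
        2 * ((C + 2) * s.length) + (τ.length + W.length) + 1 := rfl
      obtain ⟨va', α1, hv1, hα1⟩ := split_len va ((C + 1 + 1) * s.length) (by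
        rw [hva, hbd]
        have : (C + 1 + 1) * s.length = (C + 2) * s.length := by ring
        omega)
      obtain ⟨α2', α3', hv2, hα3'⟩ := split_len va'.reverse ((C + 1 + 1) * s.length) (by
        have h5 := congrArg List.length hv1
        rw [List.length_append, hva, hbd, hα1] at h5
        rw [List.length_reverse]
        have : (C + 1 + 1) * s.length = (C + 2) * s.length := by ring
        omega)
      have hv3 : va' = α3'.reverse ++ α2'.reverse := by
        have := congrArg List.reverse hv2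
        simpa using this
      set α3 := α3'.reverse with hα3def
      set α2 := α2'.reverse with hα2def
      have hα3 : α3.length = (C + 1 + 1) * s.length := by rw [hα3def, List.length_reverse, hα3']
      have hsum : α3.length + α2.length + α1.length = bnd s τ (τ.length + W.length) p := by
        rw [← hva, hv1, hv3]
        simp only [List.length_append]
      have hα2 : τ.length + W.length < α2.length := by
        rw [hα3, hα1, hbd] at hsum
        have : (C + 1 + 1) * s.length = (C + 2) * s.length := by ring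
        omega
      have htt : S.T q1 (τ ++ (rep p.2 s ++ τ)) (((vb ++ α3) ++ α2) ++ α1) q' := by
        have e : ((vb ++ α3) ++ α2) ++ α1 = ν3 ++ ν2 ++ ν1 := by
          rw [hv, hv1, hv3]; simp
        rw [e]; exact tt
      obtain ⟨r1, c1, c', hc1, w1, w1'⟩ := S.splitR htt
      obtain ⟨r2, c2, c'', rfl, w2, w2'⟩ := S.splitR w1'
      obtain ⟨r3, c3, c4, rfl, w3, w4⟩ := S.splitR w2'
      have hcl : c1.length + c2.length + c3.length + c4.length ≤ C := by
        have := congrArg List.length hc1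
        simp only [List.length_append] at this
        rw [hC, chunk]
        simp only [List.length_append]
        omega
      have hYY : flat s τ us ++ W = (y ++ vb) ++ (α3 ++ (α2 ++ (α1 ++ (ν0 ++ z)))) := by
        rw [hY]
        have e : ν3 ++ ν2 ++ ν1 = vb ++ (α3 ++ (α2 ++ α1)) := by
          rw [hv, hv1, hv3]; simp
        have e2 : y ++ (ν3 ++ ν2 ++ ν1 ++ ν0 ++ z) = y ++ ((ν3 ++ ν2 ++ ν1) ++ (ν0 ++ z)) := by
          simp
        rw [e2, e]; simp
      have hU0 : F0.φ (flat s τ us0 ++ chunk s τ p) = 1 ∨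
          F0.φ (flat s τ us0 ++ chunk s τ p) = F0.φ s :=
        or_mul he (or_flat he hs1 hτ1 _) (or_mul he (or_rep he hs1 _) (or_mul he hτ1
          (or_mul he (or_rep he hs1 _) hτ1)))
      rcases lemA us (y ++ vb) hbig' hYY hsum.le hα2 with hin | hin
      · refine nsHole (m := C + 1) (U0 := flat s τ us0 ++ chunk s τ p) hs he hF0 hτ hU0 w3
          (by omega) hα3 hin ?_
        intro ν' hν'
        have w := S.comp w1 (S.comp w2 (S.comp hν' w4))
        rw [← hc1] at w
        have := hR _ _ (S.comp t0 w)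
        simpa [chunk, List.append_assoc] using this
      · refine nsHole (m := C + 1) (U0 := flat s τ us0 ++ chunk s τ p) hs he hF0 hτ hU0 w1
          (by omega) hα1 hin ?_
        intro ν' hν'
        have w := S.comp hν' (S.comp w2 (S.comp w3 w4))
        rw [← hc1] at w
        have := hR _ _ (S.comp t0 w)
        simpa [chunk, List.append_assoc] using this

end TT

end Pool.Agent.TH297.PK
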