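import Mathlib
import Pool.Agent.TH297.PK.G
set_option autoImplicit false

namespace Pool.Agent.TH297.PK

open Pool.Agent.Results.MP_5ca50a_lc.SmallExponents

variable {α : Type}

namespace TT

variable {Q : Type} {S : TT α Q}

theorem rep_mem {D : Set (List α)} (h0 : [] ∈ D) (hmul : ∀ x ∈ D, ∀ y ∈ D, x ++ y ∈ D)
    {x : List α} (hx : x ∈ D) (n : ℕ) : rep n x ∈ D := by
  induction n with
  | zero => exact h0
  | succ n ih => rw [rep_succ]; exact hmul _ hx _ ih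

theorem flat_mem {D : Set (List α)} (h0 : [] ∈ D) (hmul : ∀ x ∈ D, ∀ y ∈ D, x ++ y ∈ D)
    {s τ : List α} (hs : s ∈ D) (hτ : τ ∈ D) (us : List ℕ) : flat s τ us ∈ D := by
  induction us with
  | nil => exact h0
  | cons n us ih => exact hmul _ (rep_mem h0 hmul hs n) _ (hmul _ hτ _ ih)

/-- The finite colouring. -/
theorem coloring [Finite Q] {k : ℕ} (hk : 1 ≤ k) {L : List α → Prop} (hP : PK k L)
    (hEx : Ex S L) (D Tv : Set (List α)) (hD0 : [] ∈ D)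
    (hD : ∀ x ∈ D, ∀ y ∈ D, x ++ y ∈ D) (hTD : Tv ⊆ D)
    (hT1 : [] ∈ Tv) (hT2 : ∀ x ∈ Tv, ∀ y ∈ Tv, x ++ y ∈ Tv) (hT3 : ∀ x ∈ D, rep k x ∈ Tv) :
    ∃ (C : Type) (_ : Finite C) (χ : List α → C), ∀ P Z δ κ, χ δ = χ κ → δ ∈ D → κ ∈ D →
      (∀ x1 ∈ Tv, ∀ x2 ∈ Tv, L (P ++ x1 ++ δ ++ x2 ++ Z)) → L (P ++ κ ++ Z) := by
  by_cases hne : ∃ d ∈ D, d ≠ []
  swap
  · push Not at hne
    refine ⟨Unit, inferInstance, fun _ => (), ?_⟩
    intro P Z δ κ _ hδ hκ h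
    have h1 := h [] hT1 [] hT1
    rw [hne δ hδ] at h1
    rw [hne κ hκ]
    simpa using h1
  obtain ⟨d, hd, hd0⟩ := hne
  obtain ⟨F0, hF0⟩ := exists_FM0 S
  obtain ⟨s', ⟨hs'D, hs'0⟩, hs'e, hs'N⟩ := F0.exists_min {x | x ∈ D ∧ x ≠ []} ⟨d, hd, hd0⟩ (by
    rintro x ⟨hx, hx0⟩ y ⟨hy, _⟩
    exact ⟨hD x hx y hy, by simp [hx0]⟩)
  obtain ⟨k', hk'⟩ : ∃ k', k = k' + 1 := ⟨k - 1, by omega⟩
  have hidem : ∀ (M : Type) [Monoid M] (e : M), e * e = e → e ^ k = e := by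
    intro M _ e he
    rw [hk']
    clear hk'
    induction k' with
    | zero => simp
    | succ n ih => rw [pow_succ, ih, he]
  set s := rep k s' with hsdef
  have hφs : F0.φ s = F0.φ s' := by rw [hsdef, F0.φ_rep, hidem _ _ hs'e]
  have hs : s ≠ [] := by
    rw [hsdef, hk', rep_succ]
    simp [hs'0]
  have hsT : s ∈ Tv := hT3 s' hs'D
  have he : F0.φ s * F0.φ s = F0.φ s := by rw [hφs]; exact hs'e
  have hN0 : ∀ x ∈ D, ∃ N, 1 ≤ N ∧ (F0.φ s * F0.φ x * F0.φ s) ^ N = F0.φ s := by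
    intro x hx
    by_cases hx0 : x = []
    · refine ⟨1, le_rfl, ?_⟩
      rw [hx0, F0.one, mul_one, pow_one, he]
    · rw [hφs]
      exact hs'N x ⟨hx, hx0⟩
  obtain ⟨m0, hm0, hdel1⟩ := del hk hP hEx hs
  have hdel : ∀ j P W, L (P ++ (rep (m0 * j) s ++ W)) → L (P ++ W) :=
    fun j P W => del' hdel1 j P W
  have hs0 : 0 < s.length := List.length_pos_iff.mpr hs
  obtain ⟨F1, hF1⟩ := exists_FM1 (S := S) (s := s) (M := m0 * s.length) (Dvd.intro_left _ rfl)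
    (Nat.mul_pos hm0 hs0)
  obtain ⟨τ', ⟨hτ'D, hτ'0⟩, hτ'e, hτ'N⟩ := F1.exists_min {x | x ∈ D ∧ F0.φ x = F0.φ s}
    ⟨s, hTD hsT, rfl⟩ (by
    rintro x ⟨hx, hx0⟩ y ⟨hy, hy0⟩
    exact ⟨hD x hx y hy, by rw [F0.mul, hx0, hy0, he]⟩)
  set τ := rep k τ' with hτdef
  have hφ1τ : F1.φ τ = F1.φ τ' := by rw [hτdef, F1.φ_rep, hidem _ _ hτ'e]
  have hφ0τ : F0.φ τ = F0.φ s := by rw [hτdef, F0.φ_rep, hτ'0, hidem _ _ he]
  have hτT : τ ∈ Tv := hT3 τ' hτ'D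
  have hf : F1.φ τ * F1.φ τ = F1.φ τ := by rw [hφ1τ]; exact hτ'e
  have hN1 : ∀ x ∈ D, ∃ N, 1 ≤ N ∧ (F1.φ τ * F1.φ x * F1.φ τ) ^ N = F1.φ τ := by
    intro x hx
    obtain ⟨N, hN, h1⟩ := hN0 x hx
    have hw : rep N (τ' ++ (x ++ τ')) ∈ {x | x ∈ D ∧ F0.φ x = F0.φ s} := by
      refine ⟨rep_mem hD0 hD (hD _ hτ'D _ (hD _ hx _ hτ'D)) N, ?_⟩
      rw [F0.φ_rep, F0.mul, F0.mul, hτ'0, ← mul_assoc, h1]
    obtain ⟨N', hN', h2⟩ := hτ'N _ hw
    refine ⟨N * N', Nat.mul_pos hN hN', ?_⟩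
    rw [hφ1τ]
    rw [F1.φ_rep, F1.mul, F1.mul, ← mul_assoc (F1.φ τ')] at h2
    set f := F1.φ τ' with hfdef
    set y := f * F1.φ x * f with hy
    have hfy : f * y = y := by rw [hy, ← mul_assoc, ← mul_assoc, hτ'e]
    have hyf : y * f = y := by rw [hy, mul_assoc, hτ'e]
    obtain ⟨N, rfl⟩ : ∃ n, N = n + 1 := ⟨N - 1, by omega⟩
    have e1 : f * y ^ (N+1) * f = y ^ (N+1) := by
      rw [pow_succ', ← mul_assoc f y, hfy, ← pow_succ', pow_succ, mul_assoc, hyf]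
    rw [e1] at h2
    rw [pow_mul, h2]
  refine ⟨F0.M × F1.M, inferInstance, fun x => (F0.φ x, F1.φ x), ?_⟩
  intro P Z δ κ hχ hδ hκ hflex
  simp only [Prod.mk.injEq] at hχ
  obtain ⟨hχ0, hχ1⟩ := hχ
  -- the word
  obtain ⟨B, hB⟩ := hEx
  set W := δ ++ Z with hW
  obtain ⟨ps, hlen, hps, hgood⟩ := exists_good s τ (τ.length + W.length) m0 hm0 B 1 P.length
  have hword : L (P ++ ((ps.map (chunk s τ)).flatten ++ W)) := by
    rw [flatten_chunk]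
    have := hflex _ (flat_mem hT1 hT2 hsT hτT (unp ps)) [] hT1
    simpa [hW, List.append_assoc] using this
  obtain ⟨cs1, c, cs2, hcs, hS⟩ := hB P (ps.map (chunk s τ)) W (by
    intro c hc
    obtain ⟨p, hp, rfl⟩ := List.mem_map.mp hc
    obtain ⟨_, _, h1, _⟩ := hps p hp
    rw [chunk]
    obtain ⟨n, hn⟩ : ∃ n, p.1 = n + 1 := ⟨p.1 - 1, by omega⟩
    rw [hn, rep_succ]
    simp [hs]) (by rw [List.length_map, hlen]) hword
  obtain ⟨ps1, ps', rfl, hcs1, hcs'⟩ := List.map_eq_append_iff.mp hcs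
  obtain ⟨p, ps2, rfl, hc, hcs2⟩ := List.map_eq_cons_iff.mp hcs'
  subst hcs1 hc hcs2
  rw [flatten_chunk, flatten_chunk] at hS
  have hg := good_split s τ _ ps1 P.length _ hgood
  obtain ⟨g1, g2, g3, -⟩ := hg
  have hdvd : ∀ qs : List (ℕ × ℕ), (∀ q ∈ qs, q ∈ ps1 ++ p :: ps2) → ∀ n ∈ unp qs, m0 ∣ n := by
    intro qs hqs n hn
    obtain ⟨q, hq, h⟩ := mem_unp hn
    obtain ⟨h1, h2, _, _⟩ := hps q (hqs q hq)
    rcases h with rfl | rfl
    · exact h1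
    · exact h2
  obtain ⟨hp1, hp2, _, _⟩ := hps p (by simp)
  have hout : NSv L F0 s P W ∨ CLv L F1 τ P W := by
    rcases hS with ⟨y, v, z, q, q', hY, hT, hR⟩ | ⟨x, u, y, q, q', hX, hT, hR⟩
    · refine leftCase hs he (fun x y h => (hF0 x y h).1) (fun x y h => (hF0 x y h).2)
        (fun x y h => (hF1 x y h).1) hdel hφ0τ (hdvd ps1 (fun q hq => by simp [hq])) hp1 hp2
        (hdvd ps2 (fun q hq => by simp [hq])) hY hT hR g2 ?_
      intro n hn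
      obtain ⟨q, hq, h⟩ := mem_unp hn
      obtain ⟨h1, h2⟩ := g3 q hq
      rcases h with rfl | rfl
      · exact h1
      · exact h2
    · left
      refine rightCase hs he (fun x y h => (hF0 x y h).2) hφ0τ hX hT hR ?_
      rw [List.length_append]
      exact g1
  rcases hout with ⟨U, V, hU, hV, h⟩ | ⟨j, l, h⟩
  · obtain ⟨N, hN, h1⟩ := hN0 δ hδ
    exact F0.alg hP he hχ0.symm hN h1 hU hV (fun κ' hκ' => by
      have := h κ' hκ'
      simpa [hW] using this)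
  · obtain ⟨N, hN, h1⟩ := hN1 δ hδ
    exact F1.alg hP hf hχ1.symm hN h1 (or_rep hf (Or.inr rfl) j) (or_rep hf (Or.inr rfl) l)
      (fun κ' hκ' => by
        have := h κ' hκ'
        simpa [hW] using this)

end TT

/-- Powers of closed walks are insertions in the empty walk. -/
theorem dom_power {α V E : Type} {G : TG α V E} {k : ℕ} {a : V} {p : List E}
    (hp : G.Walk a p a) : ∃ n, G.Dom k n a [] (rep k p) a := by
  have h1 : G.Dom k 0 a (rep k p) (rep k p) a := TG.Dom.refl (G.walk_rep hp k)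
  have h2 := TG.Dom.block hp h1 (TG.Dom.nil a)
  rw [List.append_nil] at h2
  exact ⟨_, h2⟩

/-- Main theorem: languages of a grammar with the chunk property of a two-head structure. -/
theorem finite_quotients_of_Ex {α : Type} {g : ContextFreeGrammar α} {Q : Type} [Finite Q]
    {S : TT α Q} {k : ℕ} (hk : 1 ≤ k) (hP : PK k (fun w => w ∈ g.language))
    (hEx : TT.Ex S (fun w => w ∈ g.language)) :
    (Set.range g.language.leftQuotient).Finite := by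
  refine finite_quotients' hP ?_
  intro a
  obtain ⟨C, hC, χ, hχ⟩ := TT.coloring hk hP hEx
    {x | ∃ p, (tg g).Walk a p a ∧ (tg g).LP p x}
    {x | ∃ n p, (tg g).Dom k n a [] p a ∧ (tg g).LP p x}
    ⟨[], rfl, rfl⟩
    (by
      rintro x ⟨p, hp, hx⟩ y ⟨p', hp', hy⟩
      exact ⟨p ++ p', (tg g).walk_append.mpr ⟨a, hp, hp'⟩, (tg g).LP_append.mpr ⟨_, _, rfl, hx, hy⟩⟩)
    (by
      rintro x ⟨n, p, hp, hx⟩
      exact ⟨p, hp.walk', hx⟩)
    ⟨0, [], TG.Dom.nil a, rfl⟩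
    (by
      rintro x ⟨n, p, hp, hx⟩ y ⟨n', p', hp', hy⟩
      exact ⟨_, p ++ p', hp.append hp', (tg g).LP_append.mpr ⟨_, _, rfl, hx, hy⟩⟩)
    (by
      rintro x ⟨p, hp, hx⟩
      obtain ⟨n, hn⟩ := dom_power (k := k) hp
      exact ⟨n, rep k p, hn, (tg g).LP_rep hx k⟩)
  haveI := hC
  refine W.finClosed_of_coloring χ ?_
  intro P Z δ κ h1 h2 h3 h4
  refine hχ P Z δ κ h1 h2 h3 ?_
  rintro x1 ⟨n1, g1, d1, l1⟩ x2 ⟨n2, g2, d2, l2⟩
  exact h4 n1 g1 x1 n2 g2 x2 d1 l1 d2 l2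

end Pool.Agent.TH297.PK
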