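import Mathlib
import Pool.Agent.TH297.PK.H
set_option autoImplicit false

namespace Pool.Agent.TH297.PK

open Pool.Agent.Results.MP_5ca50a_lc.SmallExponents

variable {α : Type} (g : ContextFreeGrammar α)

/-- Two-head moves on strings of symbols. -/
inductive Tr : List (Symbol α g.NT) → List α → List α → List (Symbol α g.NT) → Prop
  | refl (s : List (Symbol α g.NT)) : Tr s [] [] s
  | left (a : α) {s t : List (Symbol α g.NT)} {u v : List α} : Tr s u v t →
      Tr (Symbol.terminal a :: s) (a :: u) v t
  | right (a : α) {s t : List (Symbol α g.NT)} {u v : List α} : Tr s u v t →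
      Tr (s ++ [Symbol.terminal a]) u (v ++ [a]) t
  | rule (r : ContextFreeRule α g.NT) (hr : r ∈ g.rules) {t : List (Symbol α g.NT)}
      {u v : List α} : Tr r.output u v t → Tr [Symbol.nonterminal r.input] u v t

variable {g}

theorem Tr.comp {s m t : List (Symbol α g.NT)} {u v u' v' : List α} (h1 : Tr g s u v m)
    (h2 : Tr g m u' v' t) : Tr g s (u ++ u') (v' ++ v) t := by
  induction h1 with
  | refl s => simpa using h2
  | left a h ih => exact Tr.left a (ih h2)
  | right a h ih => rw [← List.append_assoc]; exact Tr.right a (ih h2)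
  | rule r hr h ih => exact Tr.rule r hr (ih h2)

theorem Tr.splitL {s t : List (Symbol α g.NT)} {u v : List α} (h : Tr g s u v t) :
    ∀ u1 u2, u = u1 ++ u2 → ∃ b v1 v2, v = v2 ++ v1 ∧ Tr g s u1 v1 b ∧ Tr g b u2 v2 t := by
  induction h with
  | refl s =>
    intro u1 u2 he
    obtain ⟨rfl, rfl⟩ := List.append_eq_nil_iff.mp he.symm
    exact ⟨s, [], [], rfl, Tr.refl s, Tr.refl s⟩
  | @left a s t u v h ih =>
    intro u1 u2 he
    rcases u1 with _ | ⟨b, u1⟩
    · simp only [List.nil_append] at he
      subst he
      exact ⟨_, [], v, by simp, Tr.refl _, Tr.left a h⟩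
    · simp only [List.cons_append, List.cons.injEq] at he
      obtain ⟨rfl, he⟩ := he
      obtain ⟨b, v1, v2, rfl, h1, h2⟩ := ih u1 u2 he
      exact ⟨b, v1, v2, rfl, Tr.left a h1, h2⟩
  | @right a s t u v h ih =>
    intro u1 u2 he
    obtain ⟨b, v1, v2, rfl, h1, h2⟩ := ih u1 u2 he
    exact ⟨b, v1 ++ [a], v2, by simp, Tr.right a h1, h2⟩
  | rule r hr h ih =>
    intro u1 u2 he
    obtain ⟨b, v1, v2, rfl, h1, h2⟩ := ih u1 u2 he
    exact ⟨b, v1, v2, rfl, Tr.rule r hr h1, h2⟩

theorem Tr.splitR {s t : List (Symbol α g.NT)} {u v : List α} (h : Tr g s u v t) :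
    ∀ v2 v1, v = v2 ++ v1 → ∃ b u1 u2, u = u1 ++ u2 ∧ Tr g s u1 v1 b ∧ Tr g b u2 v2 t := by
  induction h with
  | refl s =>
    intro v2 v1 he
    obtain ⟨rfl, rfl⟩ := List.append_eq_nil_iff.mp he.symm
    exact ⟨s, [], [], rfl, Tr.refl s, Tr.refl s⟩
  | @left a s t u v h ih =>
    intro v2 v1 he
    obtain ⟨b, u1, u2, rfl, h1, h2⟩ := ih v2 v1 he
    exact ⟨b, a :: u1, u2, rfl, Tr.left a h1, h2⟩
  | @right a s t u v h ih =>
    intro v2 v1 he
    rcases List.eq_nil_or_concat v1 with rfl | ⟨v1', b, rfl⟩
    · simp only [List.append_nil] at he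
      subst he
      exact ⟨_, [], u, rfl, Tr.refl _, Tr.right a h⟩
    · rw [List.concat_eq_append, ← List.append_assoc] at he
      have hh := List.append_inj' he rfl
      have hb : a = b := by simpa using hh.2
      subst hb
      obtain ⟨b, u1, u2, rfl, h1, h2⟩ := ih v2 v1' hh.1
      exact ⟨b, u1, u2, rfl, by rw [List.concat_eq_append]; exact Tr.right a h1, h2⟩
  | rule r hr h ih =>
    intro v2 v1 he
    obtain ⟨b, u1, u2, rfl, h1, h2⟩ := ih v2 v1 he
    exact ⟨b, u1, u2, rfl, Tr.rule r hr h1, h2⟩

theorem Tr.right_list {s t : List (Symbol α g.NT)} {u v : List α} (h : Tr g s u v t) :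
    ∀ x : List α, Tr g (s ++ x.map Symbol.terminal) u (v ++ x) t := by
  intro x
  induction x using List.reverseRecOn with
  | nil => simpa using h
  | append_singleton x a ih =>
    have := Tr.right a ih
    simpa [List.append_assoc] using this

theorem Tr.left_list {s t : List (Symbol α g.NT)} {u v : List α} (h : Tr g s u v t) :
    ∀ x : List α, Tr g (x.map Symbol.terminal ++ s) (x ++ u) v t := by
  intro x
  induction x with
  | nil => simpa using h
  | cons a x ih => exact Tr.left a ih

variable (g)

/-- The strings of symbols used as states. -/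
def St : Set (List (Symbol α g.NT)) :=
  {s | (∃ r ∈ g.rules, s = [Symbol.nonterminal r.input]) ∨ ∃ r ∈ g.rules, s <:+: r.output}

theorem St.finite : (St g).Finite := by
  have h1 : {s : List (Symbol α g.NT) | ∃ r ∈ g.rules, s = [Symbol.nonterminal r.input]}.Finite := by
    have : {s : List (Symbol α g.NT) | ∃ r ∈ g.rules, s = [Symbol.nonterminal r.input]} =
        (fun r : ContextFreeRule α g.NT => [Symbol.nonterminal r.input]) '' (g.rules : Set _) := by
      ext s
      constructor
      · rintro ⟨r, hr, rfl⟩; exact ⟨r, hr, rfl⟩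
      · rintro ⟨r, hr, rfl⟩; exact ⟨r, hr, rfl⟩
    rw [this]
    exact g.rules.finite_toSet.image _
  have h2 : {s : List (Symbol α g.NT) | ∃ r ∈ g.rules, s <:+: r.output}.Finite := by
    have : {s : List (Symbol α g.NT) | ∃ r ∈ g.rules, s <:+: r.output} =
        ⋃ r ∈ (g.rules : Set (ContextFreeRule α g.NT)), {s | s <:+: r.output} := by
      ext s
      simp
    rw [this]
    refine g.rules.finite_toSet.biUnion fun r _ => ?_
    have hsub : {s : List (Symbol α g.NT) | s <:+: r.output} ⊆
        (fun p : ℕ × ℕ => (r.output.drop p.1).take p.2) ''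
          ((Set.Iic r.output.length) ×ˢ (Set.Iic r.output.length)) := by
      rintro s ⟨p, q, h⟩
      refine ⟨(p.length, s.length), ⟨?_, ?_⟩, ?_⟩
      · simp only [Set.mem_Iic]; rw [← h]; simp only [List.length_append]; omega
      · simp only [Set.mem_Iic]; rw [← h]; simp only [List.length_append]; omega
      · simp only
        rw [← h, List.append_assoc, List.drop_left, List.take_left]
    exact (((Set.finite_Iic _).prod (Set.finite_Iic _)).image _).subset hsub
  exact h1.union h2

instance : Finite (St g) := St.finite g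

variable {g}

theorem St.ofInner {s t : List (Symbol α g.NT)} (h : s <:+: t) (ht : t ∈ St g)
    (hs : s.length + 1 ≤ t.length) : s ∈ St g ∨ s = [] := by
  rcases ht with ⟨r, hr, rfl⟩ | ⟨r, hr, h'⟩
  · right
    simp only [List.length_cons, List.length_nil] at hs
    exact List.length_eq_zero_iff.mp (by omega)
  · exact Or.inl (Or.inr ⟨r, hr, h.trans h'⟩)

theorem St.nil_mem {s : List (Symbol α g.NT)} (hs : s ∈ St g) : [] ∈ St g := by
  rcases hs with ⟨r, hr, _⟩ | ⟨r, hr, _⟩
  · exact Or.inr ⟨r, hr, List.nil_infix⟩
  · exact Or.inr ⟨r, hr, List.nil_infix⟩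

theorem Tr.mem {s t : List (Symbol α g.NT)} {u v : List α} (h : Tr g s u v t) :
    s ∈ St g → t ∈ St g := by
  induction h with
  | refl s => exact id
  | left a h ih =>
    intro hs
    apply ih
    rcases St.ofInner (g := g) (List.suffix_cons _ _).isInfix hs (by simp) with h' | h'
    · exact h'
    · rw [h']; exact St.nil_mem hs
  | right a h ih =>
    intro hs
    apply ih
    rcases St.ofInner (g := g) (List.prefix_append _ _).isInfix hs (by simp) with h' | h'
    · exact h'
    · rw [h']; exact St.nil_mem hs
  | rule r hr h ih =>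
    intro _
    exact ih (Or.inr ⟨r, hr, List.infix_refl _⟩)

variable (g)

/-- The two-head structure of a grammar. -/
def trTT : TT α (St g) where
  T a u v b := Tr g a.1 u v b.1
  refl a := Tr.refl _
  comp h1 h2 := Tr.comp h1 h2
  splitL := by
    intro a u1 u2 v c h
    obtain ⟨b, v1, v2, e, h1, h2⟩ := Tr.splitL h u1 u2 rfl
    exact ⟨⟨b, h1.mem a.2⟩, v1, v2, e, h1, h2⟩
  splitR := by
    intro a u v2 v1 c h
    obtain ⟨b, u1, u2, e, h1, h2⟩ := Tr.splitR h v2 v1 rfl
    exact ⟨⟨b, h1.mem a.2⟩, u1, u2, e, h1, h2⟩

/-- A context-free grammar is ultralinear if its nonterminals can be ranked so that every rule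
`A → w` is either such that all nonterminals in `w` have rank smaller than that of `A`, or of the
form `A → u B v` with terminal words `u`, `v` and a nonterminal `B` whose rank is at most that
of `A`. -/
def Ultralinear : Prop :=
  ∃ rank : g.NT → ℕ, ∀ r ∈ g.rules,
    (∀ B, Symbol.nonterminal B ∈ r.output → rank B < rank r.input) ∨
    ∃ (u v : List α) (B : g.NT), r.output =
      u.map Symbol.terminal ++ Symbol.nonterminal B :: v.map Symbol.terminal ∧
      rank B ≤ rank r.input

variable {g}

/-- Linear strings of rank at most `n`. -/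
def Lin (rank : g.NT → ℕ) (n : ℕ) (s : List (Symbol α g.NT)) : Prop :=
  (∀ B, Symbol.nonterminal B ∈ s → rank B < n) ∨
    ∃ (u v : List α) (B : g.NT), s =
      u.map Symbol.terminal ++ Symbol.nonterminal B :: v.map Symbol.terminal ∧ rank B ≤ n

theorem gen_terminals : ∀ {x w : List α}, Gen g (x.map Symbol.terminal) w → w = x
  | [], w, h => by cases h; rfl
  | a :: x, w, h => by
    cases h with
    | term _ h => rw [gen_terminals h]

theorem lin_decomp {rank : g.NT → ℕ} {n : ℕ}
    (hg : ∀ r ∈ g.rules,
      (∀ B, Symbol.nonterminal B ∈ r.output → rank B < rank r.input) ∨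
      ∃ (u v : List α) (B : g.NT), r.output =
        u.map Symbol.terminal ++ Symbol.nonterminal B :: v.map Symbol.terminal ∧
        rank B ≤ rank r.input)
    {s : List (Symbol α g.NT)} {w : List α} (h : Gen g s w) : Lin rank n s →
    ∃ t u v w', w = u ++ (w' ++ v) ∧ Tr g s u v t ∧
      (∀ B, Symbol.nonterminal B ∈ t → rank B < n) ∧ Gen g t w' := by
  induction h with
  | nil =>
    intro _
    exact ⟨[], [], [], [], rfl, Tr.refl _, by simp, Gen.nil⟩
  | @term a s w h ih =>
    rintro (hl | ⟨u, v, B, he, hB⟩)
    · exact ⟨_, [], [], a :: w, by simp, Tr.refl _, hl, Gen.term a h⟩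
    · rcases u with _ | ⟨b, u⟩
      · simp at he
      · simp only [List.map_cons, List.cons_append, List.cons.injEq, Symbol.terminal.injEq] at he
        obtain ⟨rfl, he⟩ := he
        obtain ⟨t, u', v', w', rfl, h1, h2, h3⟩ := ih (Or.inr ⟨u, v, B, he, hB⟩)
        exact ⟨t, a :: u', v', w', rfl, Tr.left a h1, h2, h3⟩
  | @nt r hr s w1 w2 h1 h2 ih1 ih2 =>
    rintro (hl | ⟨u, v, B, he, hB⟩)
    · exact ⟨_, [], [], w1 ++ w2, by simp, Tr.refl _, hl, Gen.nt r hr h1 h2⟩
    · rcases u with _ | ⟨b, u⟩
      · simp only [List.map_nil, List.nil_append, List.cons.injEq,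
          Symbol.nonterminal.injEq] at he
        obtain ⟨rfl, rfl⟩ := he
        have hw2 := gen_terminals h2
        subst hw2
        have hlin : Lin rank n r.output := by
          rcases hg r hr with h' | ⟨u', v', B', e', hB'⟩
          · exact Or.inl (fun B hB' => lt_of_lt_of_le (h' B hB') hB)
          · exact Or.inr ⟨u', v', B', e', hB'.trans hB⟩
        obtain ⟨t, u', v', w', rfl, h3, h4, h5⟩ := ih1 hlin
        refine ⟨t, u', v' ++ w2, w', by simp, ?_, h4, h5⟩
        have := (Tr.rule r hr h3).right_list w2
        simpa using this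
      · simp at he

theorem gen_of_tr {s t : List (Symbol α g.NT)} {u v : List α} (h : Tr g s u v t) :
    ∀ {w : List α}, Gen g t w → Gen g s (u ++ (w ++ v)) := by
  induction h with
  | refl s => intro w h; simpa using h
  | left a h ih => intro w hw; exact Gen.term a (ih hw)
  | @right a s t u v h ih =>
    intro w hw
    have := (ih hw).append (Gen.term a Gen.nil)
    simpa [List.append_assoc] using this
  | @rule r hr t u v h ih =>
    intro w hw
    have := Gen.nt r hr (ih hw) Gen.nil
    simpa using this

open TT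

theorem ex_list {P : g.NT → Prop} (h : ∀ A, P A → Ex (trTT g) (Gen g [Symbol.nonterminal A])) :
    ∀ s : List (Symbol α g.NT), (∀ B, Symbol.nonterminal B ∈ s → P B) →
      Ex (trTT g) (Gen g s)
  | [], _ => Ex.short (fun w hw => by cases hw; simp)
  | c :: s, hs => by
    have ih := ex_list h s (fun B hB => hs B (List.mem_cons_of_mem _ hB))
    have hc : Ex (trTT g) (Gen g [c]) := by
      cases c with
      | terminal a =>
        refine Ex.short (fun w hw => ?_)
        cases hw with
        | term _ h' => cases h'; simp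
      | nonterminal A => exact h A (hs A (by simp))
    refine (hc.prod ih).congr ?_
    intro w
    constructor
    · rintro ⟨w1, w2, rfl, h1, h2⟩
      exact h1.append h2
    · intro hw
      exact Gen.split (s := [c]) hw

theorem ex_rank {rank : g.NT → ℕ}
    (hg : ∀ r ∈ g.rules,
      (∀ B, Symbol.nonterminal B ∈ r.output → rank B < rank r.input) ∨
      ∃ (u v : List α) (B : g.NT), r.output =
        u.map Symbol.terminal ++ Symbol.nonterminal B :: v.map Symbol.terminal ∧
        rank B ≤ rank r.input) :
    ∀ n A, rank A ≤ n → Ex (trTT g) (Gen g [Symbol.nonterminal A]) := by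
  intro n
  induction n using Nat.strong_induction_on with
  | _ n ih =>
    intro A hA
    by_cases hmem : [Symbol.nonterminal A] ∈ St g
    · -- the states of smaller rank
      let J := {t : St g // ∀ B, Symbol.nonterminal B ∈ t.1 → rank B < n}
      have hJ : ∀ j : J, Ex (trTT g) (Gen g j.1.1) := by
        intro j
        refine ex_list (P := fun B => rank B < n) ?_ _ j.2
        intro B hB
        exact ih (rank B) hB B le_rfl
      have := Ex.lin (S := trTT g) (fun j : J => j.1) ⟨[Symbol.nonterminal A], hmem⟩ hJ
      refine this.congr ?_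
      intro w
      constructor
      · rintro ⟨j, u, w', v, rfl, h1, h2⟩
        exact gen_of_tr h1 h2
      · intro hw
        obtain ⟨t, u, v, w', rfl, h1, h2, h3⟩ := lin_decomp (n := n) hg hw
          (Or.inr ⟨[], [], A, rfl, hA⟩)
        exact ⟨⟨⟨t, h1.mem hmem⟩, h2⟩, u, w', v, rfl, h1, h3⟩
    · refine Ex.short (fun w hw => ?_)
      exfalso
      generalize hs : [Symbol.nonterminal A] = s at hw
      cases hw with
      | nil => simp at hs
      | term a h => simp at hs
      | nt r hr h1 h2 =>
        simp only [List.cons.injEq, Symbol.nonterminal.injEq] at hs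
        apply hmem
        rw [hs.1]
        exact Or.inl ⟨r, hr, rfl⟩

theorem gen_initial_iff (w : List α) : w ∈ g.language ↔ Gen g [Symbol.nonterminal g.initial] w := by
  rw [mem_language_iff_genN]
  constructor
  · intro h
    have := h.gen Gen.nil
    simpa using this
  · intro h
    generalize hs : [Symbol.nonterminal g.initial] = s at h
    cases h with
    | nil => simp at hs
    | term a h => simp at hs
    | nt r hr h1 h2 =>
      simp only [List.cons.injEq, Symbol.nonterminal.injEq] at hs
      obtain ⟨e1, rfl⟩ := hs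
      cases h2
      rw [List.append_nil]
      exact ⟨r.output, by rw [e1]; exact hr, h1⟩

/-- Ultralinear languages with `P_k` are regular. -/
theorem regular_of_ultralinear {k : ℕ} (hk : 1 ≤ k) (hg : Ultralinear g)
    (hP : PK k (fun w => w ∈ g.language)) : g.language.IsRegular := by
  obtain ⟨rank, hg⟩ := hg
  refine Language.IsRegular.of_finite_range_leftQuotient ?_
  refine finite_quotients_of_Ex (S := trTT g) hk hP ?_
  refine (ex_rank hg (rank g.initial) g.initial le_rfl).congr ?_
  intro w
  exact (gen_initial_iff w).symm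

end Pool.Agent.TH297.PK
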